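import Pool.Graph.R_seed8.R11.KneserTab

/-!
# Weight tables for Kneser graphs
-/

set_option autoImplicit false

namespace Pool.Agent.KS6_83.KG

open Pool.Agent.R11.Kneser

set_option maxRecDepth 100000 in
theorem cz_12_5 : pebbling (kneser 12 5) = (12).choose 5 :=
  check_class_zero (Q := 6000) (L :=
    [(0, 5, 6000, 0, 0), (1, 2, 248, 2, 3), (1, 3, 376, 4, 0), (2, 1, 252, 2, 3),
      (2, 2, 183, 2, 3), (2, 3, 508, 3, 0), (3, 0, 1060, 0, 5), (3, 1, 247, 2, 3),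
      (3, 2, 247, 2, 3), (4, 0, 1000, 0, 5)])
    (by decide +kernel)

set_option maxRecDepth 100000 in
theorem cz_19_7 : pebbling (kneser 19 7) = (19).choose 7 :=
  check_class_zero (Q := 27720000) (L :=
    [(0, 7, 27720000, 0, 0), (1, 1, 19297, 1, 6), (1, 2, 39558, 6, 0), (1, 3, 39558, 5, 0),
      (1, 4, 27928, 6, 0), (1, 5, 39558, 6, 0), (1, 6, 39663, 5, 0), (2, 0, 81081, 0, 7),
      (2, 1, 19296, 3, 4), (2, 2, 39558, 5, 0), (2, 3, 31149, 4, 0), (2, 4, 39558, 5, 0),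
      (2, 5, 39599, 3, 0), (3, 0, 81165, 0, 7), (3, 1, 19297, 2, 5), (3, 2, 39558, 4, 0),
      (3, 3, 33581, 3, 0), (3, 4, 39558, 2, 0), (4, 0, 81109, 0, 7), (4, 1, 19297, 1, 5),
      (4, 2, 39558, 3, 0), (4, 3, 39558, 2, 0), (5, 0, 81102, 0, 7), (5, 1, 19296, 2, 5),
      (5, 2, 39220, 2, 0), (6, 0, 81102, 0, 7), (6, 1, 2070, 1, 3)])
    (by decide +kernel)

set_option maxRecDepth 100000 in
theorem cz_21_8 : pebbling (kneser 21 8) = (21).choose 8 :=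
  check_class_zero (Q := 27720000) (L :=
    [(0, 8, 27720000, 0, 0), (1, 2, 16375, 2, 6), (1, 3, 27317, 7, 0), (1, 4, 33511, 6, 0),
      (1, 5, 9634, 6, 0), (2, 1, 16345, 2, 6), (2, 2, 16347, 5, 3), (2, 3, 33511, 6, 0),
      (2, 4, 21194, 5, 0), (2, 6, 33525, 4, 0), (3, 0, 68680, 0, 8), (3, 1, 16385, 5, 3),
      (3, 2, 16347, 3, 3), (3, 3, 33511, 5, 0), (3, 4, 10436, 4, 0), (4, 0, 68752, 0, 8),
      (4, 1, 13700, 2, 6), (4, 2, 16347, 2, 6), (4, 3, 33511, 4, 0), (5, 0, 68710, 0, 8),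
      (5, 1, 16347, 2, 6), (5, 2, 16347, 2, 6), (5, 3, 33510, 3, 0), (6, 0, 68704, 0, 8),
      (6, 1, 16347, 2, 6), (6, 2, 12110, 2, 6), (7, 0, 56000, 0, 8)])
    (by decide +kernel)

set_option maxRecDepth 100000 in
theorem cz_22_10 : pebbling (kneser 22 10) = (22).choose 10 :=
  check_class_zero (Q := 29700) (L :=
    [(0, 10, 29700, 0, 0), (1, 8, 1100, 9, 0), (2, 7, 57, 7, 2), (2, 8, 4646, 8, 0),
      (3, 5, 120, 5, 5), (3, 6, 536, 7, 2), (3, 7, 842, 6, 2), (4, 4, 542, 4, 6),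
      (4, 5, 140, 5, 4), (4, 6, 1102, 6, 2), (5, 3, 548, 4, 6), (5, 4, 536, 4, 6),
      (5, 5, 260, 4, 4), (6, 2, 2262, 2, 8), (6, 3, 504, 4, 6), (7, 2, 1100, 2, 8),
      (8, 0, 9500, 0, 10), (8, 1, 1010, 2, 8), (9, 0, 2700, 0, 10)])
    (by decide +kernel)

set_option maxRecDepth 100000 in
theorem cz_24_9 : pebbling (kneser 24 9) = (24).choose 9 :=
  check_class_zero (Q := 75675600) (L :=
    [(0, 9, 75675600, 0, 0), (1, 2, 11326, 2, 7), (1, 3, 18446, 8, 0), (1, 4, 23224, 7, 0),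
      (1, 5, 17341, 7, 0), (2, 1, 11328, 2, 7), (2, 2, 11329, 2, 7), (2, 3, 23224, 7, 0),
      (2, 4, 23224, 6, 0), (2, 5, 3238, 5, 0), (2, 7, 23379, 6, 0), (3, 0, 47574, 0, 9),
      (3, 1, 11493, 6, 3), (3, 2, 11329, 3, 5), (3, 3, 23220, 6, 0), (3, 4, 5488, 5, 0),
      (3, 5, 23224, 5, 0), (3, 6, 23220, 5, 0), (4, 0, 47874, 0, 9), (4, 1, 11328, 4, 3),
      (4, 2, 11329, 5, 3), (4, 3, 23224, 5, 0), (4, 4, 8161, 4, 0), (5, 0, 47778, 0, 9),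
      (5, 1, 11329, 3, 5), (5, 2, 11329, 2, 7), (5, 3, 23220, 4, 0), (5, 4, 495, 3, 0),
      (6, 0, 47682, 0, 9), (6, 1, 11328, 3, 6), (6, 2, 11325, 2, 7), (6, 3, 23220, 3, 0),
      (7, 0, 47634, 0, 9), (7, 1, 11325, 2, 3), (7, 2, 7265, 2, 7), (8, 0, 37800, 0, 9)])
    (by decide +kernel)

set_option maxRecDepth 100000 in
theorem cz_27_11 : pebbling (kneser 27 11) = (27).choose 11 :=
  check_class_zero (Q := 18018000) (L :=
    [(0, 11, 18018000, 0, 0), (1, 5, 4155, 5, 6), (1, 6, 6439, 10, 0), (1, 7, 4921, 9, 0),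
      (2, 4, 4141, 4, 7), (2, 5, 4121, 4, 6), (2, 6, 7858, 9, 0), (3, 3, 4186, 4, 7),
      (3, 4, 4121, 4, 7), (3, 5, 4121, 4, 6), (3, 6, 5447, 8, 0), (3, 8, 8450, 6, 0),
      (4, 2, 4116, 4, 7), (4, 3, 4120, 4, 7), (4, 4, 4121, 4, 7), (4, 5, 1656, 4, 6),
      (4, 6, 8450, 7, 0), (4, 7, 8470, 6, 0), (5, 1, 4100, 4, 7), (5, 2, 4156, 3, 8),
      (5, 3, 4121, 4, 7), (5, 4, 4121, 4, 6), (5, 5, 3265, 4, 6), (5, 6, 8450, 6, 0),
      (6, 0, 17270, 0, 11), (6, 1, 4208, 3, 8), (6, 2, 4121, 4, 6), (6, 3, 4121, 3, 8),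
      (6, 4, 4121, 4, 7), (6, 5, 4120, 4, 6), (7, 0, 17655, 0, 11), (7, 1, 4121, 4, 6),
      (7, 2, 4121, 3, 8), (7, 3, 4121, 4, 7), (7, 4, 3938, 4, 6), (8, 0, 17391, 0, 11),
      (8, 1, 4121, 3, 8), (8, 2, 4120, 3, 8), (8, 3, 3332, 3, 8), (9, 0, 17336, 0, 11),
      (9, 1, 3832, 2, 6), (9, 2, 2016, 2, 6), (10, 0, 13200, 0, 11)])
    (by decide +kernel)

set_option maxRecDepth 100000 in
theorem cz_28_10 : pebbling (kneser 28 10) = (28).choose 10 :=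
  check_class_zero (Q := 4410806400) (L :=
    [(0, 10, 4410806400, 0, 0), (1, 1, 54828, 7, 3), (1, 2, 110702, 9, 0), (1, 3, 112461, 8, 0),
      (1, 4, 112461, 8, 0), (1, 5, 101874, 7, 0), (1, 6, 112461, 8, 0), (1, 8, 112461, 8, 0),
      (2, 0, 230400, 0, 10), (2, 1, 54852, 6, 3), (2, 2, 112448, 8, 0), (2, 3, 112461, 7, 0),
      (2, 4, 112448, 8, 0), (2, 5, 112460, 6, 0), (2, 6, 27296, 4, 0), (2, 7, 112754, 3, 0),
      (3, 0, 230265, 0, 10), (3, 1, 54855, 6, 3), (3, 2, 112472, 7, 0), (3, 3, 112461, 7, 0),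
      (3, 4, 112461, 7, 0), (3, 5, 90705, 4, 0), (4, 0, 230540, 0, 10), (4, 1, 54926, 1, 6),
      (4, 2, 112456, 6, 0), (4, 3, 112461, 5, 0), (4, 4, 112460, 6, 0), (4, 5, 31150, 3, 0),
      (5, 0, 230640, 0, 10), (5, 1, 54858, 1, 6), (5, 2, 112461, 5, 0), (5, 3, 112461, 5, 0),
      (5, 4, 89921, 3, 0), (6, 0, 230653, 0, 10), (6, 1, 54859, 2, 7), (6, 2, 112461, 4, 0),
      (6, 3, 112455, 4, 0), (6, 4, 56779, 4, 0), (7, 0, 230605, 0, 10), (7, 1, 54859, 1, 8),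
      (7, 2, 112455, 3, 0), (7, 3, 112455, 3, 0), (8, 0, 230575, 0, 10), (8, 1, 54859, 1, 6),
      (8, 2, 101724, 2, 0), (9, 0, 226800, 0, 10)])
    (by decide +kernel)

set_option maxRecDepth 100000 in
theorem cz_28_12 : pebbling (kneser 28 12) = (28).choose 12 :=
  check_class_zero (Q := 9009000) (L :=
    [(0, 12, 9009000, 0, 0), (1, 8, 9658, 11, 0), (1, 9, 1893, 10, 0), (2, 8, 12915, 10, 0),
      (2, 10, 19425, 8, 0), (3, 7, 4615, 9, 1), (3, 8, 15356, 9, 0), (3, 9, 19512, 9, 0),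
      (4, 4, 9568, 4, 8), (4, 5, 2890, 8, 3), (4, 6, 4615, 8, 2), (4, 7, 4615, 6, 3),
      (4, 8, 19412, 8, 0), (5, 3, 9579, 3, 9), (5, 4, 9469, 4, 8), (5, 5, 4615, 6, 4),
      (5, 6, 3745, 5, 4), (6, 2, 9567, 2, 10), (6, 3, 9468, 3, 9), (6, 4, 9469, 4, 8),
      (6, 5, 806, 6, 3), (7, 1, 9702, 3, 9), (7, 2, 9469, 2, 10), (7, 3, 9469, 4, 8),
      (7, 4, 3286, 4, 8), (8, 0, 39600, 0, 12), (8, 2, 9490, 3, 9), (8, 3, 5922, 3, 9),
      (9, 0, 39834, 0, 12), (9, 1, 9469, 3, 9), (9, 2, 7314, 2, 10), (10, 0, 39800, 0, 12),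
      (10, 1, 7400, 2, 10), (11, 0, 19800, 0, 12)])
    (by decide +kernel)

set_option maxRecDepth 100000 in
theorem cz_33_14 : pebbling (kneser 33 14) = (33).choose 14 :=
  check_class_zero (Q := 61261200) (L :=
    [(0, 14, 61261200, 0, 0), (1, 8, 4420, 10, 4), (1, 9, 9765, 13, 0), (1, 10, 3189, 12, 0),
      (2, 7, 4410, 10, 4), (2, 8, 180, 11, 2), (2, 9, 10683, 12, 0), (2, 11, 18546, 11, 0),
      (3, 6, 4460, 10, 4), (3, 7, 175, 11, 2), (3, 8, 4410, 8, 4), (3, 9, 12456, 11, 0),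
      (4, 5, 9041, 5, 9), (4, 6, 459, 10, 3), (4, 7, 4410, 8, 4), (4, 8, 4410, 8, 4),
      (4, 9, 15917, 10, 0), (4, 10, 18563, 9, 0), (5, 4, 9072, 5, 9), (5, 5, 9041, 5, 9),
      (5, 6, 4410, 9, 3), (5, 7, 4410, 8, 4), (5, 8, 4410, 8, 2), (5, 9, 18534, 9, 0),
      (6, 3, 9240, 5, 9), (6, 4, 9040, 4, 10), (6, 5, 9041, 5, 9), (6, 6, 4410, 7, 4),
      (6, 7, 2107, 8, 2), (7, 2, 9040, 5, 9), (7, 3, 9052, 5, 9), (7, 4, 9040, 5, 9),
      (7, 5, 7876, 5, 9), (8, 1, 9035, 4, 10), (8, 2, 9058, 5, 9), (8, 3, 9041, 5, 9),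
      (8, 4, 9041, 5, 9), (8, 5, 1527, 5, 9), (9, 0, 37940, 0, 14), (9, 1, 9104, 4, 10),
      (9, 2, 9041, 5, 9), (9, 3, 9041, 5, 9), (9, 4, 3886, 4, 10), (10, 0, 33138, 0, 14),
      (10, 1, 9041, 4, 10), (10, 2, 9041, 4, 10), (10, 3, 941, 4, 10), (10, 4, 9040, 4, 10),
      (11, 0, 38045, 0, 14), (11, 1, 9041, 2, 11), (11, 2, 370, 2, 11), (11, 3, 9040, 2, 11),
      (12, 0, 37996, 0, 14), (12, 1, 7442, 2, 11), (13, 0, 20020, 0, 14)])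
    (by decide +kernel)

set_option maxRecDepth 100000 in
theorem cz_37_16 : pebbling (kneser 37 16) = (37).choose 16 :=
  check_class_zero (Q := 740703600) (L :=
    [(0, 16, 740703600, 0, 0), (1, 11, 74575, 15, 0), (1, 12, 19038, 14, 0),
      (2, 10, 35930, 11, 4), (2, 11, 15395, 14, 0), (2, 12, 116566, 13, 0), (3, 10, 25818, 9, 5),
      (3, 11, 122242, 13, 0), (4, 8, 35924, 11, 4), (4, 9, 35931, 9, 5), (4, 10, 35932, 9, 5),
      (4, 11, 51453, 12, 0), (4, 12, 151466, 11, 0), (5, 6, 17526, 6, 10), (5, 7, 35931, 11, 4),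
      (5, 8, 35924, 9, 5), (5, 9, 35931, 9, 5), (5, 10, 31176, 8, 4), (5, 11, 151339, 11, 0),
      (6, 5, 74042, 5, 11), (6, 6, 35928, 10, 5), (6, 7, 35931, 9, 5), (6, 8, 35924, 9, 5),
      (6, 9, 35931, 9, 3), (6, 10, 35928, 8, 3), (7, 4, 74048, 5, 11), (7, 5, 73662, 5, 11),
      (7, 6, 35932, 9, 5), (7, 7, 35931, 9, 5), (7, 8, 30576, 9, 3), (8, 3, 74178, 5, 11),
      (8, 4, 73660, 5, 11), (8, 5, 73662, 5, 11), (8, 6, 35932, 8, 5), (8, 7, 10493, 8, 4),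
      (9, 2, 73640, 4, 12), (9, 3, 73700, 4, 12), (9, 4, 43952, 5, 11), (9, 5, 73660, 5, 11),
      (10, 3, 65442, 4, 12), (10, 5, 73660, 5, 11), (11, 0, 309520, 0, 16),
      (11, 1, 73916, 4, 12), (11, 2, 53479, 4, 12), (11, 4, 73660, 5, 11),
      (12, 0, 309856, 0, 16), (12, 1, 73662, 4, 12), (12, 2, 73662, 4, 12),
      (12, 3, 41473, 4, 12), (13, 0, 309624, 0, 16), (13, 1, 59626, 3, 11),
      (13, 2, 59626, 3, 11), (14, 0, 309568, 0, 16), (14, 1, 56854, 2, 12),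
      (15, 0, 152880, 0, 16)])
    (by decide +kernel)

set_option maxRecDepth 100000 in
theorem cz_42_19 : pebbling (kneser 42 19) = (42).choose 19 :=
  check_class_zero (Q := 232792560) (L :=
    [(0, 19, 232792560, 0, 0), (1, 15, 57057, 18, 0), (2, 14, 17462, 17, 1),
      (2, 15, 79190, 17, 0), (3, 14, 76040, 16, 1), (3, 15, 53548, 16, 0),
      (3, 16, 319568, 15, 0), (4, 11, 18092, 11, 8), (4, 12, 4159, 11, 7), (4, 13, 58021, 15, 2),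
      (4, 15, 319664, 15, 0), (5, 10, 18090, 11, 8), (5, 11, 18093, 11, 8),
      (5, 12, 44512, 14, 3), (5, 14, 76115, 13, 2), (6, 9, 18060, 11, 8), (6, 10, 18081, 11, 8),
      (6, 11, 9548, 13, 4), (6, 12, 76034, 12, 4), (6, 13, 76388, 13, 2), (7, 8, 37122, 8, 11),
      (7, 9, 18090, 11, 8), (7, 10, 18093, 9, 8), (7, 11, 53011, 12, 4), (8, 7, 37115, 8, 11),
      (8, 8, 37092, 8, 11), (8, 9, 18093, 9, 8), (8, 10, 18093, 9, 8), (8, 11, 76040, 11, 4),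
      (9, 7, 37103, 8, 11), (9, 8, 37092, 8, 11), (9, 9, 15636, 9, 8), (10, 5, 37126, 5, 14),
      (10, 6, 37092, 8, 11), (10, 7, 37092, 8, 11), (10, 8, 19225, 8, 11),
      (11, 4, 155942, 4, 15), (11, 5, 37092, 5, 14), (11, 6, 37092, 8, 11), (11, 7, 8527, 8, 11),
      (11, 8, 37092, 8, 11), (12, 3, 156032, 3, 16), (12, 4, 155882, 4, 15),
      (12, 5, 37092, 5, 14), (12, 6, 11879, 7, 11), (13, 2, 156128, 3, 16),
      (13, 3, 155880, 3, 16), (13, 4, 19574, 4, 15), (13, 5, 33706, 5, 14),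
      (14, 1, 155880, 3, 16), (14, 2, 155895, 3, 16), (14, 3, 133302, 3, 16),
      (15, 0, 655044, 0, 19), (15, 1, 155913, 3, 16), (15, 2, 155882, 3, 16),
      (15, 3, 15571, 3, 16), (16, 0, 655215, 0, 19), (16, 1, 155882, 3, 16),
      (16, 2, 38256, 3, 16), (17, 0, 655120, 0, 19), (17, 1, 35796, 2, 15),
      (18, 0, 151164, 0, 19)])
    (by decide +kernel)

end Pool.Agent.KS6_83.KG
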