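import Pool.Graph.R_seed8.R11.KneserTab

/-!
# Weight tables for Kneser graphs
-/

set_option autoImplicit false

namespace Pool.Agent.KS6_83.KG

open Pool.Agent.R11.Kneser

set_option maxRecDepth 100000 in
theorem cz_13_5 : pebbling (kneser 13 5) = (13).choose 5 :=
  check_class_zero (Q := 84000) (L :=
    [(0, 5, 84000, 0, 0), (1, 1, 881, 2, 3), (1, 2, 1789, 4, 0), (1, 3, 1266, 3, 0),
      (1, 4, 1789, 4, 0), (2, 0, 3695, 0, 5), (2, 1, 873, 2, 3), (2, 2, 1644, 3, 0),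
      (2, 3, 1789, 3, 0), (3, 0, 3675, 0, 5), (3, 1, 873, 1, 4), (3, 2, 1788, 2, 0),
      (4, 0, 3670, 0, 5), (4, 1, 198, 1, 4)])
    (by decide +kernel)

set_option maxRecDepth 100000 in
theorem cz_20_7 : pebbling (kneser 20 7) = (20).choose 7 :=
  check_class_zero (Q := 2772000) (L :=
    [(0, 7, 2772000, 0, 0), (1, 0, 3276, 0, 7), (1, 1, 1631, 6, 0), (1, 2, 1614, 5, 0),
      (1, 3, 1614, 6, 0), (1, 4, 1614, 6, 0), (1, 5, 1614, 5, 0), (1, 6, 1614, 6, 0),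
      (2, 0, 3395, 0, 7), (2, 1, 1614, 5, 0), (2, 2, 1614, 4, 0), (2, 3, 1614, 5, 0),
      (2, 4, 1614, 3, 0), (2, 5, 1190, 2, 0), (3, 0, 3332, 0, 7), (3, 1, 1614, 4, 0),
      (3, 2, 1614, 3, 0), (3, 3, 1614, 2, 0), (3, 4, 906, 2, 0), (4, 0, 3353, 0, 7),
      (4, 1, 1612, 3, 0), (4, 2, 1610, 2, 0), (4, 3, 652, 1, 0), (5, 0, 3325, 0, 7),
      (5, 1, 1610, 2, 0), (5, 2, 405, 2, 0), (6, 0, 3311, 0, 7), (6, 1, 162, 1, 0)])
    (by decide +kernel)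

set_option maxRecDepth 100000 in
theorem cz_22_8 : pebbling (kneser 22 8) = (22).choose 8 :=
  check_class_zero (Q := 12612600) (L :=
    [(0, 8, 12612600, 0, 0), (1, 1, 2289, 2, 6), (1, 2, 4731, 7, 0), (1, 3, 4725, 6, 0),
      (1, 4, 4725, 7, 0), (1, 5, 3547, 7, 0), (1, 7, 4725, 7, 0), (2, 0, 9660, 0, 8),
      (2, 1, 2303, 2, 6), (2, 2, 4725, 6, 0), (2, 3, 4725, 5, 0), (2, 4, 4724, 4, 0),
      (2, 5, 361, 3, 0), (2, 6, 4800, 5, 0), (3, 0, 9830, 0, 8), (3, 1, 2305, 5, 2),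
      (3, 2, 4725, 5, 0), (3, 3, 4098, 5, 0), (3, 4, 4725, 5, 0), (4, 0, 9724, 0, 8),
      (4, 1, 2304, 1, 7), (4, 2, 4725, 4, 0), (4, 3, 4725, 3, 0), (4, 4, 1680, 2, 0),
      (5, 0, 9690, 0, 8), (5, 1, 2305, 3, 4), (5, 2, 4725, 3, 0), (5, 3, 4725, 3, 0),
      (6, 0, 9704, 0, 8), (6, 1, 2305, 2, 2), (6, 2, 4500, 2, 0), (7, 0, 9688, 0, 8),
      (7, 1, 84, 1, 3)])
    (by decide +kernel)

set_option maxRecDepth 100000 in
theorem cz_23_10 : pebbling (kneser 23 10) = (23).choose 10 :=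
  check_class_zero (Q := 924000) (L :=
    [(0, 10, 924000, 0, 0), (1, 6, 620, 8, 2), (1, 7, 6055, 9, 0), (2, 5, 625, 8, 2),
      (2, 6, 2414, 7, 2), (2, 7, 6888, 8, 0), (3, 4, 1780, 4, 6), (3, 5, 2410, 7, 2),
      (3, 6, 2388, 5, 3), (3, 7, 15365, 7, 0), (4, 3, 7539, 3, 7), (4, 4, 1780, 4, 6),
      (4, 5, 3640, 5, 3), (4, 6, 3648, 4, 3), (5, 2, 7486, 3, 7), (5, 3, 7480, 3, 7),
      (5, 4, 1791, 5, 3), (6, 1, 7512, 3, 7), (6, 2, 7480, 3, 7), (6, 3, 3403, 3, 7),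
      (7, 0, 31485, 0, 10), (7, 1, 7480, 3, 7), (7, 2, 4949, 3, 7), (8, 0, 31450, 0, 10),
      (8, 1, 3362, 2, 7), (8, 2, 1262, 2, 7), (9, 0, 14000, 0, 10)])
    (by decide +kernel)

set_option maxRecDepth 100000 in
theorem cz_25_9 : pebbling (kneser 25 9) = (25).choose 9 :=
  check_class_zero (Q := 302702400) (L :=
    [(0, 9, 302702400, 0, 0), (1, 1, 14448, 6, 3), (1, 2, 29528, 8, 0), (1, 3, 29638, 7, 0),
      (1, 4, 29638, 7, 0), (1, 5, 29638, 5, 0), (1, 6, 10930, 7, 0), (2, 0, 60564, 0, 9),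
      (2, 1, 14448, 5, 4), (2, 2, 29638, 7, 0), (2, 3, 29638, 7, 0), (2, 4, 29638, 6, 0),
      (2, 5, 16648, 7, 0), (2, 6, 29652, 6, 0), (3, 0, 60750, 0, 9), (3, 1, 14510, 3, 4),
      (3, 2, 29637, 6, 0), (3, 3, 29637, 5, 0), (3, 4, 29638, 4, 0), (3, 5, 6606, 4, 0),
      (4, 0, 60849, 0, 9), (4, 1, 14457, 5, 2), (4, 2, 29638, 5, 0), (4, 3, 29638, 4, 0),
      (4, 4, 22812, 5, 0), (5, 0, 60861, 0, 9), (5, 1, 14457, 2, 6), (5, 2, 29635, 4, 0),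
      (5, 3, 26080, 4, 0), (5, 4, 29635, 2, 0), (6, 0, 60807, 0, 9), (6, 1, 14455, 2, 3),
      (6, 2, 29635, 3, 0), (6, 3, 29635, 2, 0), (7, 0, 60765, 0, 9), (7, 1, 14457, 2, 3),
      (7, 2, 27454, 2, 0), (8, 0, 60480, 0, 9)])
    (by decide +kernel)

set_option maxRecDepth 100000 in
theorem cz_28_11 : pebbling (kneser 28 11) = (28).choose 11 :=
  check_class_zero (Q := 240240000) (L :=
    [(0, 11, 240240000, 0, 0), (1, 4, 19084, 6, 5), (1, 5, 26825, 10, 0), (1, 6, 39006, 9, 0),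
      (1, 7, 4023, 8, 0), (2, 3, 19078, 3, 8), (2, 4, 19027, 6, 5), (2, 5, 28771, 9, 0),
      (2, 7, 39006, 7, 0), (2, 8, 39006, 6, 0), (3, 2, 19026, 3, 8), (3, 3, 19027, 3, 8),
      (3, 4, 19027, 4, 5), (3, 5, 8774, 8, 0), (3, 6, 39006, 7, 0), (3, 8, 39090, 7, 0),
      (4, 1, 19020, 3, 8), (4, 2, 19065, 3, 8), (4, 3, 19026, 4, 5), (4, 4, 8124, 4, 5),
      (4, 5, 39006, 7, 0), (5, 0, 79926, 0, 11), (5, 1, 19167, 3, 8), (5, 2, 19026, 2, 7),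
      (5, 3, 19027, 6, 5), (5, 4, 19027, 2, 7), (5, 5, 23891, 6, 0), (6, 0, 79915, 0, 11),
      (6, 1, 19063, 2, 7), (6, 2, 19026, 3, 8), (6, 3, 19027, 4, 5), (6, 4, 15381, 4, 5),
      (6, 5, 39005, 5, 0), (7, 0, 80091, 0, 11), (7, 1, 19026, 2, 7), (7, 2, 19027, 3, 6),
      (7, 3, 19027, 3, 8), (7, 4, 19027, 4, 5), (8, 0, 80025, 0, 11), (8, 1, 19024, 2, 8),
      (8, 2, 19026, 3, 8), (8, 3, 13224, 2, 7), (9, 0, 79981, 0, 11), (9, 1, 19025, 2, 8),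
      (9, 2, 3357, 2, 8), (10, 0, 55000, 0, 11)])
    (by decide +kernel)

set_option maxRecDepth 100000 in
theorem cz_29_10 : pebbling (kneser 29 10) = (29).choose 10 :=
  check_class_zero (Q := 5513508000) (L :=
    [(0, 10, 5513508000, 0, 0), (1, 0, 121500, 0, 10), (1, 1, 59670, 9, 0), (1, 2, 59862, 8, 0),
      (1, 3, 59679, 9, 0), (1, 4, 59682, 9, 0), (1, 5, 59680, 8, 0), (1, 6, 59679, 9, 0),
      (1, 7, 59682, 8, 0), (1, 8, 59680, 9, 0), (1, 9, 59616, 1, 0), (2, 0, 122280, 0, 10),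
      (2, 1, 59682, 8, 0), (2, 2, 59682, 7, 0), (2, 3, 59683, 8, 0), (2, 4, 59682, 6, 0),
      (2, 5, 59680, 4, 0), (2, 6, 59683, 3, 0), (2, 7, 59808, 5, 0), (2, 8, 48288, 3, 0),
      (3, 0, 122290, 0, 10), (3, 1, 59777, 7, 0), (3, 2, 59680, 7, 0), (3, 3, 59683, 7, 0),
      (3, 4, 59683, 4, 0), (3, 5, 59680, 6, 0), (3, 6, 59680, 2, 0), (3, 7, 41167, 6, 0),
      (4, 0, 122589, 0, 10), (4, 1, 59683, 6, 0), (4, 2, 59682, 5, 0), (4, 3, 59683, 6, 0),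
      (4, 4, 59683, 3, 0), (4, 5, 59683, 4, 0), (4, 6, 34704, 4, 0), (5, 0, 122435, 0, 10),
      (5, 1, 59683, 5, 0), (5, 2, 59683, 5, 0), (5, 3, 59682, 3, 0), (5, 4, 59683, 2, 0),
      (5, 5, 28380, 1, 0), (6, 0, 122395, 0, 10), (6, 1, 59682, 4, 0), (6, 2, 59682, 4, 0),
      (6, 3, 59682, 4, 0), (6, 4, 22095, 4, 0), (7, 0, 122435, 0, 10), (7, 1, 59682, 3, 0),
      (7, 2, 59668, 3, 0), (7, 3, 15820, 3, 0), (8, 0, 122360, 0, 10), (8, 1, 59682, 2, 0),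
      (8, 2, 9548, 2, 0), (9, 0, 122360, 0, 10), (9, 1, 3276, 1, 0)])
    (by decide +kernel)

set_option maxRecDepth 100000 in
theorem cz_29_12 : pebbling (kneser 29 12) = (29).choose 12 :=
  check_class_zero (Q := 360360000) (L :=
    [(0, 12, 360360000, 0, 0), (1, 6, 30882, 7, 5), (1, 7, 96579, 11, 0), (1, 8, 62258, 10, 0),
      (1, 11, 129591, 10, 0), (2, 5, 63235, 5, 7), (2, 6, 12114, 7, 5), (2, 7, 129610, 10, 0),
      (3, 4, 63264, 4, 8), (3, 5, 63224, 5, 7), (3, 6, 30840, 6, 4), (3, 7, 107204, 9, 0),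
      (4, 3, 63288, 5, 7), (4, 4, 63224, 4, 7), (4, 5, 63224, 4, 7), (4, 6, 18090, 7, 5),
      (4, 7, 129610, 8, 0), (4, 8, 129608, 7, 0), (5, 2, 63216, 5, 7), (5, 3, 63216, 4, 8),
      (5, 4, 63224, 4, 8), (5, 5, 63224, 2, 7), (5, 6, 30840, 7, 5), (5, 7, 129642, 7, 0),
      (6, 1, 63195, 4, 8), (6, 2, 63254, 5, 7), (6, 3, 63222, 4, 7), (6, 4, 63224, 5, 7),
      (6, 5, 62384, 4, 7), (7, 0, 265680, 0, 12), (7, 1, 63409, 4, 7), (7, 2, 63224, 4, 8),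
      (7, 3, 63222, 5, 7), (7, 4, 50668, 4, 7), (7, 5, 63220, 5, 7), (8, 0, 265900, 0, 12),
      (8, 1, 63224, 4, 8), (8, 2, 63224, 2, 7), (8, 3, 51509, 2, 7), (8, 4, 63224, 4, 7),
      (9, 0, 265742, 0, 12), (9, 1, 63224, 1, 11), (9, 2, 63224, 2, 7), (9, 3, 38599, 2, 7),
      (10, 0, 265707, 0, 12), (10, 1, 63224, 1, 11), (10, 2, 22265, 2, 7), (11, 0, 198000, 0, 12)])
    (by decide +kernel)

set_option maxRecDepth 100000 in
theorem cz_29_13 : pebbling (kneser 29 13) = (29).choose 13 :=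
  check_class_zero (Q := 924000) (L :=
    [(0, 13, 924000, 0, 0), (1, 9, 192, 11, 2), (1, 10, 3340, 12, 0), (2, 8, 188, 11, 2),
      (2, 9, 1364, 10, 2), (2, 10, 4708, 11, 0), (3, 7, 722, 7, 6), (3, 8, 1364, 10, 2),
      (3, 9, 1422, 8, 3), (3, 10, 12789, 10, 0), (4, 6, 1480, 6, 7), (4, 7, 475, 9, 3),
      (4, 8, 3035, 8, 3), (4, 9, 3039, 7, 3), (5, 5, 1485, 5, 8), (5, 6, 1480, 6, 7),
      (5, 7, 1515, 8, 3), (5, 8, 3035, 8, 2), (6, 4, 1512, 4, 9), (6, 5, 1480, 5, 8),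
      (6, 6, 1335, 6, 7), (6, 7, 3035, 7, 3), (7, 3, 6240, 3, 10), (7, 4, 1480, 4, 9),
      (7, 5, 1480, 5, 8), (7, 6, 1480, 6, 7), (8, 2, 6248, 3, 10), (8, 3, 6222, 3, 10),
      (8, 4, 644, 5, 8), (9, 1, 6326, 3, 10), (9, 2, 4392, 3, 10), (9, 3, 973, 3, 10),
      (9, 4, 1480, 4, 9), (10, 0, 26376, 0, 13), (10, 1, 6222, 3, 10), (10, 2, 2799, 3, 10),
      (11, 0, 26168, 0, 13), (11, 1, 2294, 2, 10), (11, 2, 385, 2, 10), (12, 0, 8800, 0, 13)])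
    (by decide +kernel)

set_option maxRecDepth 100000 in
theorem cz_33_15 : pebbling (kneser 33 15) = (33).choose 15 :=
  check_class_zero (Q := 3712800) (L :=
    [(0, 15, 3712800, 0, 0), (1, 12, 10200, 14, 0), (2, 11, 3806, 13, 1), (2, 12, 17142, 13, 0),
      (3, 9, 3176, 9, 6), (3, 10, 3660, 12, 2), (3, 11, 2448, 11, 2), (3, 12, 56204, 12, 0),
      (4, 8, 3171, 9, 6), (4, 9, 3176, 9, 6), (4, 10, 6485, 11, 2), (4, 11, 13394, 9, 3),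
      (5, 7, 3171, 9, 6), (5, 8, 3171, 9, 6), (5, 9, 5144, 10, 3), (5, 10, 13400, 9, 3),
      (6, 6, 6551, 6, 9), (6, 7, 3171, 9, 6), (6, 8, 3129, 8, 5), (6, 9, 13349, 9, 3),
      (7, 5, 6560, 5, 10), (7, 6, 6512, 6, 9), (7, 7, 3171, 8, 5), (7, 8, 3171, 8, 5),
      (8, 4, 6530, 4, 11), (8, 5, 6510, 5, 10), (8, 6, 5144, 6, 9), (9, 3, 27383, 3, 12),
      (9, 4, 6512, 4, 11), (9, 5, 1415, 5, 10), (9, 6, 6512, 6, 9), (10, 2, 27378, 3, 12),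
      (10, 3, 26454, 3, 12), (11, 1, 27461, 3, 12), (11, 2, 27366, 3, 12), (11, 3, 3583, 3, 12),
      (12, 0, 115050, 0, 15), (12, 1, 27366, 3, 12), (12, 2, 7512, 3, 12),
      (13, 0, 115020, 0, 15), (13, 1, 7802, 2, 12), (14, 0, 27300, 0, 15)])
    (by decide +kernel)

set_option maxRecDepth 100000 in
theorem cz_40_18 : pebbling (kneser 40 18) = (40).choose 18 :=
  check_class_zero (Q := 581981400) (L :=
    [(0, 18, 581981400, 0, 0), (1, 13, 46040, 15, 3), (1, 14, 138943, 17, 0),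
      (2, 12, 45990, 15, 3), (2, 13, 46035, 15, 3), (2, 14, 190890, 16, 0),
      (3, 11, 46039, 15, 3), (3, 12, 46039, 15, 3), (3, 13, 157070, 14, 2),
      (3, 15, 747560, 15, 0), (4, 10, 42320, 10, 8), (4, 11, 35775, 12, 6),
      (4, 12, 150355, 14, 2), (4, 14, 747682, 14, 0), (5, 9, 42336, 10, 8), (5, 10, 42320, 9, 8),
      (5, 11, 157685, 13, 3), (6, 8, 86758, 8, 10), (6, 9, 42315, 10, 8), (6, 10, 51331, 12, 4),
      (6, 11, 177856, 11, 4), (6, 12, 177988, 11, 3), (7, 7, 86807, 7, 11), (7, 8, 86760, 8, 10),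
      (7, 9, 42318, 9, 7), (7, 10, 115240, 11, 4), (7, 11, 177858, 11, 3), (8, 6, 86890, 7, 11),
      (8, 7, 86758, 7, 11), (8, 8, 86758, 8, 10), (8, 9, 42315, 10, 5), (8, 10, 177856, 10, 4),
      (9, 5, 87529, 7, 11), (9, 6, 86760, 7, 11), (9, 7, 86758, 7, 11), (9, 8, 86758, 8, 10),
      (9, 9, 12978, 7, 7), (10, 4, 364792, 4, 14), (10, 5, 86760, 7, 11), (10, 6, 86760, 7, 11),
      (10, 7, 61990, 7, 11), (10, 8, 86760, 8, 10), (11, 3, 364687, 3, 15),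
      (11, 4, 364610, 4, 14), (11, 5, 86760, 7, 11), (11, 6, 58553, 7, 11),
      (12, 2, 364976, 3, 15), (12, 3, 364608, 3, 15), (12, 4, 105233, 4, 14),
      (12, 5, 40752, 3, 13), (12, 6, 73344, 4, 12), (13, 1, 364582, 3, 15),
      (13, 2, 364621, 3, 15), (13, 3, 323257, 3, 15), (13, 4, 23101, 4, 14),
      (14, 0, 1532232, 0, 18), (14, 1, 364636, 3, 15), (14, 2, 321992, 3, 15),
      (14, 3, 79230, 3, 15), (15, 0, 1532406, 0, 18), (15, 1, 364610, 3, 15),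
      (15, 3, 94381, 3, 15), (16, 0, 1532292, 0, 18), (16, 1, 93088, 2, 14),
      (16, 2, 16224, 2, 14), (17, 0, 437580, 0, 18)])
    (by decide +kernel)

end Pool.Agent.KS6_83.KG
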