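import Pool.Graph.R_seed8.R11.KneserTab

/-!
# Weight tables for Kneser graphs
-/

set_option autoImplicit false

namespace Pool.Agent.KS6_83.KG

open Pool.Agent.R11.Kneser

set_option maxRecDepth 100000 in
theorem cz_14_5 : pebbling (kneser 14 5) = (14).choose 5 :=
  check_class_zero (Q := 168) (L :=
    [(0, 5, 168, 0, 0), (1, 0, 43, 0, 5), (1, 1, 1, 4, 0), (1, 2, 1, 3, 0), (1, 3, 1, 4, 0),
      (1, 4, 1, 4, 0), (2, 0, 18, 0, 5), (2, 2, 1, 3, 0), (3, 0, 8, 0, 5), (4, 0, 3, 0, 5)])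
    (by decide +kernel)

set_option maxRecDepth 100000 in
theorem cz_14_6 : pebbling (kneser 14 6) = (14).choose 6 :=
  check_class_zero (Q := 21000) (L :=
    [(0, 6, 21000, 0, 0), (1, 3, 219, 3, 3), (1, 4, 1254, 5, 0), (2, 2, 923, 2, 4),
      (2, 3, 261, 4, 1), (2, 4, 1881, 4, 0), (3, 1, 925, 2, 4), (3, 2, 917, 2, 4),
      (3, 3, 447, 3, 2), (4, 0, 3876, 0, 6), (4, 1, 917, 2, 4), (4, 2, 408, 2, 4),
      (5, 0, 3000, 0, 6)])
    (by decide +kernel)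

set_option maxRecDepth 100000 in
theorem cz_20_9 : pebbling (kneser 20 9) = (20).choose 9 :=
  check_class_zero (Q := 120000) (L :=
    [(0, 9, 120000, 0, 0), (1, 7, 5000, 8, 0), (2, 5, 690, 5, 4), (2, 6, 636, 7, 1),
      (2, 7, 14617, 7, 0), (3, 4, 1696, 4, 5), (3, 5, 2439, 6, 2), (3, 6, 2139, 5, 2),
      (4, 3, 1698, 4, 5), (4, 4, 1696, 4, 5), (4, 5, 3476, 5, 2), (5, 2, 7134, 2, 7),
      (5, 3, 1695, 4, 5), (5, 4, 1416, 4, 5), (6, 2, 5000, 2, 7), (7, 0, 29964, 0, 9),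
      (7, 1, 5002, 2, 7), (8, 0, 12000, 0, 9)])
    (by decide +kernel)

set_option maxRecDepth 100000 in
theorem cz_23_8 : pebbling (kneser 23 8) = (23).choose 8 :=
  check_class_zero (Q := 108108000) (L :=
    [(0, 8, 108108000, 0, 0), (1, 0, 34384, 0, 8), (1, 1, 16886, 7, 0), (1, 2, 16796, 6, 0),
      (1, 3, 16797, 7, 0), (1, 4, 16796, 7, 0), (1, 5, 16797, 6, 0), (1, 6, 16796, 7, 0),
      (1, 7, 16793, 6, 0), (2, 0, 34416, 0, 8), (2, 1, 16832, 6, 0), (2, 2, 16794, 5, 0),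
      (2, 3, 16797, 4, 0), (2, 4, 16796, 3, 0), (2, 5, 16797, 5, 0), (2, 6, 12876, 2, 0),
      (3, 0, 34474, 0, 8), (3, 1, 16797, 5, 0), (3, 2, 16797, 5, 0), (3, 3, 16797, 5, 0),
      (3, 4, 16797, 2, 0), (3, 5, 10329, 1, 0), (4, 0, 34500, 0, 8), (4, 1, 16797, 4, 0),
      (4, 2, 16795, 3, 0), (4, 3, 16795, 2, 0), (4, 4, 8032, 1, 0), (5, 0, 34460, 0, 8),
      (5, 1, 16795, 3, 0), (5, 2, 16795, 3, 0), (5, 3, 5795, 2, 0), (6, 0, 34436, 0, 8),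
      (6, 1, 16797, 2, 0), (6, 2, 3579, 2, 0), (7, 0, 34440, 0, 8), (7, 1, 1365, 1, 0)])
    (by decide +kernel)

set_option maxRecDepth 100000 in
theorem cz_24_10 : pebbling (kneser 24 10) = (24).choose 10 :=
  check_class_zero (Q := 36036000) (L :=
    [(0, 10, 36036000, 0, 0), (1, 5, 19490, 7, 3), (1, 6, 61461, 9, 0), (1, 7, 21574, 8, 0),
      (2, 4, 39933, 4, 6), (2, 5, 19475, 7, 3), (2, 6, 60636, 8, 0), (2, 8, 81998, 6, 0),
      (3, 3, 39998, 3, 7), (3, 4, 39933, 4, 6), (3, 5, 19475, 6, 2), (3, 6, 54689, 7, 0),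
      (3, 7, 81863, 7, 0), (4, 2, 40066, 3, 7), (4, 3, 39933, 3, 7), (4, 4, 39933, 4, 6),
      (4, 5, 19475, 4, 3), (4, 6, 81861, 6, 0), (5, 1, 40122, 3, 7), (5, 2, 39933, 2, 8),
      (5, 3, 39933, 4, 6), (5, 4, 39933, 4, 6), (5, 5, 8680, 4, 2), (6, 0, 167800, 0, 10),
      (6, 1, 39965, 3, 7), (6, 2, 39932, 2, 8), (6, 3, 39933, 3, 7), (6, 4, 20572, 4, 6),
      (7, 0, 167850, 0, 10), (7, 1, 39933, 3, 7), (7, 2, 29137, 3, 7), (7, 3, 39933, 3, 7),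
      (8, 0, 167835, 0, 10), (8, 1, 39933, 2, 8), (8, 2, 14926, 2, 8), (9, 0, 126000, 0, 10)])
    (by decide +kernel)

set_option maxRecDepth 100000 in
theorem cz_26_9 : pebbling (kneser 26 9) = (26).choose 9 :=
  check_class_zero (Q := 144144000) (L :=
    [(0, 9, 144144000, 0, 0), (1, 0, 12096, 0, 9), (1, 1, 5928, 8, 0), (1, 2, 5928, 7, 0),
      (1, 3, 5928, 8, 0), (1, 4, 5928, 8, 0), (1, 5, 5928, 7, 0), (1, 6, 5928, 8, 0),
      (1, 7, 6026, 7, 0), (1, 8, 5920, 8, 0), (2, 0, 12096, 0, 9), (2, 1, 5969, 7, 0),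
      (2, 2, 5929, 7, 0), (2, 3, 5928, 6, 0), (2, 4, 5929, 7, 0), (2, 5, 5929, 6, 0),
      (2, 6, 5928, 2, 0), (2, 7, 4683, 7, 0), (3, 0, 12150, 0, 9), (3, 1, 5943, 6, 0),
      (3, 2, 5929, 5, 0), (3, 3, 5928, 4, 0), (3, 4, 5929, 4, 0), (3, 5, 5929, 3, 0),
      (3, 6, 3888, 5, 0), (4, 0, 12189, 0, 9), (4, 1, 5928, 5, 0), (4, 2, 5929, 4, 0),
      (4, 3, 5929, 5, 0), (4, 4, 5929, 3, 0), (4, 5, 3172, 5, 0), (5, 0, 12285, 0, 9),
      (5, 1, 5925, 4, 0), (5, 2, 5925, 4, 0), (5, 3, 5925, 2, 0), (5, 4, 2475, 2, 0),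
      (6, 0, 12162, 0, 9), (6, 1, 5928, 3, 0), (6, 2, 5929, 2, 0), (6, 3, 1780, 3, 0),
      (7, 0, 12159, 0, 9), (7, 1, 5929, 2, 0), (7, 2, 1085, 2, 0), (8, 0, 12159, 0, 9),
      (8, 1, 392, 1, 0)])
    (by decide +kernel)

set_option maxRecDepth 100000 in
theorem cz_29_11 : pebbling (kneser 29 11) = (29).choose 11 :=
  check_class_zero (Q := 3675672000) (L :=
    [(0, 11, 3675672000, 0, 0), (1, 3, 101542, 3, 8), (1, 4, 144900, 10, 0),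
      (1, 5, 208175, 9, 0), (1, 6, 165916, 8, 0), (2, 2, 101535, 3, 8), (2, 3, 101567, 3, 8),
      (2, 4, 208179, 9, 0), (2, 5, 208179, 8, 0), (2, 6, 26709, 8, 0), (2, 8, 208179, 8, 0),
      (2, 9, 208173, 4, 0), (3, 1, 101550, 2, 9), (3, 2, 101550, 3, 8), (3, 3, 101550, 2, 8),
      (3, 4, 208179, 8, 0), (3, 5, 137485, 7, 0), (3, 8, 208270, 8, 0), (4, 0, 426195, 0, 11),
      (4, 1, 101550, 2, 8), (4, 2, 101587, 3, 8), (4, 3, 101550, 2, 8), (4, 4, 208179, 7, 0),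
      (4, 5, 57635, 6, 0), (5, 0, 426756, 0, 11), (5, 1, 101592, 5, 5), (5, 2, 101550, 2, 9),
      (5, 3, 101550, 5, 5), (5, 4, 95599, 6, 0), (5, 5, 208179, 5, 0), (6, 0, 427020, 0, 11),
      (6, 1, 101550, 2, 8), (6, 2, 101550, 2, 9), (6, 3, 101550, 2, 8), (6, 4, 170643, 5, 0),
      (7, 0, 426888, 0, 11), (7, 1, 101550, 3, 8), (7, 2, 101550, 2, 8), (7, 3, 101550, 2, 8),
      (7, 4, 196399, 4, 0), (8, 0, 426789, 0, 11), (8, 1, 101550, 2, 8), (8, 2, 101550, 3, 8),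
      (8, 3, 101549, 3, 8), (9, 0, 426800, 0, 11), (9, 1, 101550, 2, 8), (9, 2, 16170, 2, 9),
      (10, 0, 297000, 0, 11)])
    (by decide +kernel)

set_option maxRecDepth 100000 in
theorem cz_30_12 : pebbling (kneser 30 12) = (30).choose 12 :=
  check_class_zero (Q := 408408000) (L :=
    [(0, 12, 408408000, 0, 0), (1, 5, 21960, 6, 6), (1, 6, 32195, 11, 0), (1, 7, 42445, 10, 0),
      (2, 4, 21966, 6, 6), (2, 5, 21950, 6, 6), (2, 6, 44999, 10, 0), (2, 7, 13942, 9, 0),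
      (2, 10, 44985, 9, 0), (3, 3, 21950, 6, 6), (3, 4, 21950, 3, 8), (3, 5, 21950, 6, 6),
      (3, 6, 32212, 9, 0), (3, 8, 44998, 8, 0), (3, 9, 45144, 8, 0), (4, 2, 21940, 3, 9),
      (4, 3, 22009, 3, 9), (4, 4, 21944, 4, 6), (4, 5, 9190, 4, 6), (4, 6, 44998, 8, 0),
      (5, 1, 21945, 6, 6), (5, 2, 22019, 3, 9), (5, 3, 21948, 6, 6), (5, 4, 21950, 6, 6),
      (5, 5, 21950, 4, 6), (5, 6, 25369, 7, 0), (6, 0, 91476, 0, 12), (6, 1, 21945, 2, 10),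
      (6, 2, 21938, 4, 6), (6, 3, 21945, 3, 8), (6, 4, 21924, 6, 6), (6, 5, 17640, 6, 6),
      (6, 6, 45291, 6, 0), (7, 0, 92220, 0, 12), (7, 1, 22039, 3, 8), (7, 2, 21948, 3, 9),
      (7, 3, 21948, 3, 8), (7, 4, 21950, 3, 8), (7, 5, 21950, 4, 6), (8, 0, 92408, 0, 12),
      (8, 1, 21950, 3, 8), (8, 2, 21950, 3, 9), (8, 3, 21950, 3, 9), (8, 4, 20124, 3, 8),
      (9, 0, 92278, 0, 12), (9, 1, 21950, 2, 10), (9, 2, 21950, 3, 8), (9, 3, 15742, 3, 9),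
      (10, 0, 92266, 0, 12), (10, 1, 21950, 2, 10), (10, 2, 6085, 2, 10), (11, 0, 66000, 0, 12)])
    (by decide +kernel)

set_option maxRecDepth 100000 in
theorem cz_30_13 : pebbling (kneser 30 13) = (30).choose 13 :=
  check_class_zero (Q := 72072000) (L :=
    [(0, 13, 72072000, 0, 0), (1, 8, 5200, 11, 2), (1, 9, 62775, 12, 0), (1, 10, 675, 11, 0),
      (2, 7, 5188, 11, 2), (2, 8, 22219, 10, 2), (2, 9, 58622, 11, 0), (3, 6, 16014, 6, 7),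
      (3, 7, 22219, 10, 2), (3, 8, 32829, 8, 3), (3, 9, 40550, 10, 0), (3, 10, 137977, 10, 0),
      (4, 5, 16010, 5, 8), (4, 6, 16010, 6, 7), (4, 7, 32825, 7, 4), (4, 8, 32820, 8, 2),
      (4, 9, 138102, 9, 0), (5, 4, 67443, 4, 9), (5, 5, 16010, 5, 8), (5, 6, 32825, 7, 4),
      (5, 7, 32825, 8, 2), (5, 8, 32825, 7, 2), (6, 3, 67331, 4, 9), (6, 4, 67300, 4, 9),
      (6, 5, 32829, 7, 4), (6, 6, 9813, 7, 3), (6, 7, 32829, 5, 4), (7, 2, 67342, 4, 9),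
      (7, 3, 67299, 4, 9), (7, 4, 67300, 4, 9), (7, 5, 741, 6, 4), (8, 1, 67296, 4, 9),
      (8, 2, 67321, 4, 9), (8, 3, 67300, 4, 9), (8, 4, 17490, 4, 9), (9, 0, 282828, 0, 13),
      (9, 1, 67319, 4, 9), (9, 2, 67300, 4, 9), (9, 3, 32161, 4, 9), (10, 0, 282906, 0, 13),
      (10, 1, 67300, 3, 10), (10, 2, 45548, 3, 10), (11, 0, 282841, 0, 13), (11, 1, 30624, 1, 9),
      (11, 2, 10627, 1, 9), (12, 0, 128700, 0, 13)])
    (by decide +kernel)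

set_option maxRecDepth 100000 in
theorem cz_34_15 : pebbling (kneser 34 15) = (34).choose 15 :=
  check_class_zero (Q := 122522400) (L :=
    [(0, 15, 122522400, 0, 0), (1, 10, 14780, 13, 2), (1, 11, 59191, 14, 0),
      (2, 11, 102399, 13, 0), (2, 13, 181038, 11, 0), (3, 8, 21000, 8, 7), (3, 9, 24624, 12, 2),
      (3, 10, 43060, 11, 2), (3, 11, 34584, 12, 0), (4, 7, 21000, 7, 8), (4, 8, 21000, 7, 7),
      (4, 9, 43062, 11, 2), (4, 10, 14410, 8, 4), (4, 11, 181148, 11, 0), (5, 6, 21006, 7, 8),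
      (5, 7, 21000, 7, 8), (5, 8, 43057, 10, 3), (5, 9, 24090, 8, 4), (5, 10, 43200, 9, 2),
      (6, 5, 21090, 5, 10), (6, 6, 21006, 7, 8), (6, 7, 28812, 9, 4), (6, 8, 43057, 8, 4),
      (6, 9, 43062, 9, 2), (7, 4, 88429, 4, 11), (7, 5, 21005, 5, 10), (7, 6, 21006, 7, 8),
      (7, 7, 43057, 8, 4), (7, 8, 43057, 8, 3), (8, 3, 88437, 4, 11), (8, 4, 88278, 4, 11),
      (8, 5, 21005, 5, 10), (8, 6, 20730, 7, 8), (8, 7, 43057, 7, 4), (9, 2, 88686, 2, 13),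
      (9, 3, 88278, 4, 11), (9, 4, 59069, 4, 11), (9, 5, 16975, 5, 10), (10, 1, 88256, 2, 13),
      (10, 2, 88290, 2, 13), (10, 3, 88278, 4, 11), (10, 4, 16147, 4, 11),
      (11, 0, 370980, 0, 15), (11, 1, 88373, 2, 13), (11, 2, 88278, 2, 13),
      (11, 3, 33645, 4, 11), (12, 0, 371100, 0, 15), (12, 1, 88278, 2, 13),
      (12, 2, 50479, 2, 13), (13, 0, 371000, 0, 15), (13, 2, 30280, 2, 13),
      (14, 0, 150150, 0, 15)])
    (by decide +kernel)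

set_option maxRecDepth 100000 in
theorem cz_38_17 : pebbling (kneser 38 17) = (38).choose 17 :=
  check_class_zero (Q := 1253498400) (L :=
    [(0, 17, 1253498400, 0, 0), (1, 13, 447678, 16, 0), (2, 12, 162052, 15, 1),
      (2, 13, 498416, 15, 0), (2, 15, 1739416, 13, 0), (3, 11, 11145, 14, 2),
      (3, 12, 413850, 12, 3), (3, 13, 886191, 14, 0), (4, 9, 3612, 9, 8), (4, 10, 98455, 9, 7),
      (4, 11, 413850, 12, 3), (4, 13, 1740034, 13, 0), (5, 8, 46578, 8, 9), (5, 9, 98476, 9, 7),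
      (5, 10, 413847, 12, 3), (5, 12, 413963, 10, 4), (6, 7, 201884, 8, 9), (6, 8, 201878, 8, 9),
      (6, 9, 305460, 11, 4), (6, 10, 74064, 10, 4), (7, 6, 202059, 8, 9), (7, 7, 201873, 8, 9),
      (7, 8, 201866, 8, 9), (7, 9, 269682, 10, 4), (8, 5, 202088, 8, 9), (8, 6, 201878, 8, 9),
      (8, 7, 201873, 8, 9), (8, 8, 171738, 8, 9), (8, 9, 413840, 9, 4), (9, 4, 849755, 4, 13),
      (9, 5, 201875, 8, 9), (9, 6, 201875, 8, 9), (9, 7, 201845, 8, 9), (9, 8, 201866, 8, 9),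
      (10, 3, 848841, 4, 13), (10, 4, 848394, 4, 13), (10, 5, 201875, 4, 11),
      (10, 6, 165735, 5, 10), (11, 2, 848415, 2, 15), (11, 3, 848394, 4, 13),
      (11, 4, 626193, 4, 13), (12, 1, 848384, 4, 13), (12, 2, 848428, 4, 13),
      (12, 3, 848394, 4, 13), (12, 4, 34084, 4, 13), (13, 0, 3565308, 0, 17),
      (13, 1, 848401, 4, 13), (13, 2, 848394, 4, 13), (13, 3, 183806, 4, 13),
      (14, 0, 3565461, 0, 17), (14, 1, 848394, 2, 15), (14, 2, 22847, 2, 15),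
      (14, 3, 243130, 2, 13), (15, 0, 3565376, 0, 17), (15, 1, 332208, 2, 15),
      (16, 0, 1099560, 0, 17)])
    (by decide +kernel)

end Pool.Agent.KS6_83.KG
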