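import Pool.Graph.R_seed8.R11.KneserTab

/-!
# Weight tables for Kneser graphs
-/

set_option autoImplicit false

namespace Pool.Agent.KS6_83.KG

open Pool.Agent.R11.Kneser

set_option maxRecDepth 100000 in
theorem cz_10_4 : pebbling (kneser 10 4) = (10).choose 4 :=
  check_class_zero (Q := 15000) (L :=
    [(0, 4, 15000, 0, 0), (1, 1, 614, 2, 2), (1, 2, 1044, 3, 0), (1, 3, 1254, 2, 0),
      (2, 0, 2580, 0, 4), (2, 1, 612, 1, 3), (2, 2, 1254, 2, 0), (3, 0, 2574, 0, 4),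
      (3, 1, 213, 1, 3)])
    (by decide +kernel)

set_option maxRecDepth 100000 in
theorem cz_15_6 : pebbling (kneser 15 6) = (15).choose 6 :=
  check_class_zero (Q := 4200) (L :=
    [(0, 6, 4200, 0, 0), (1, 3, 42, 5, 0), (1, 4, 84, 4, 0), (2, 2, 36, 2, 3), (2, 3, 78, 4, 0),
      (3, 0, 203, 0, 6), (3, 1, 39, 2, 3), (3, 2, 39, 2, 3), (3, 3, 77, 3, 0), (4, 0, 171, 0, 6),
      (4, 1, 39, 2, 3), (4, 2, 39, 1, 4), (5, 0, 150, 0, 6)])
    (by decide +kernel)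

set_option maxRecDepth 100000 in
theorem cz_16_7 : pebbling (kneser 16 7) = (16).choose 7 :=
  check_class_zero (Q := 12000) (L :=
    [(0, 7, 12000, 0, 0), (1, 4, 188, 4, 3), (1, 5, 510, 6, 0), (2, 3, 180, 4, 3),
      (2, 4, 36, 5, 1), (2, 5, 1580, 5, 0), (3, 2, 780, 2, 5), (3, 3, 180, 4, 3),
      (3, 4, 372, 3, 2), (4, 2, 350, 2, 5), (4, 3, 380, 3, 2), (5, 0, 3236, 0, 7),
      (5, 1, 626, 2, 5), (6, 0, 1500, 0, 7)])
    (by decide +kernel)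

set_option maxRecDepth 100000 in
theorem cz_18_8 : pebbling (kneser 18 8) = (18).choose 8 :=
  check_class_zero (Q := 6300) (L :=
    [(0, 8, 6300, 0, 0), (1, 6, 300, 7, 0), (2, 4, 86, 4, 4), (2, 5, 21, 5, 2),
      (2, 6, 751, 6, 0), (3, 3, 88, 4, 4), (3, 4, 146, 5, 2), (3, 5, 177, 4, 2),
      (4, 2, 370, 2, 6), (4, 3, 60, 4, 4), (4, 4, 176, 4, 2), (5, 2, 300, 2, 6),
      (6, 0, 1532, 0, 8), (6, 1, 298, 2, 6), (7, 0, 700, 0, 8)])
    (by decide +kernel)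

set_option maxRecDepth 100000 in
theorem cz_21_9 : pebbling (kneser 21 9) = (21).choose 9 :=
  check_class_zero (Q := 308000) (L :=
    [(0, 9, 308000, 0, 0), (1, 5, 38, 7, 2), (1, 6, 2731, 8, 0), (2, 4, 494, 4, 5),
      (2, 5, 1012, 6, 2), (2, 6, 2024, 7, 0), (2, 7, 4277, 7, 0), (3, 3, 2089, 3, 6),
      (3, 4, 1012, 6, 2), (3, 5, 1000, 6, 1), (3, 6, 4257, 6, 0), (4, 2, 2100, 2, 7),
      (4, 3, 2076, 3, 6), (4, 4, 1012, 4, 3), (4, 5, 1012, 3, 3), (5, 1, 2108, 3, 6),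
      (5, 2, 2076, 3, 6), (5, 3, 1785, 3, 6), (6, 0, 8924, 0, 9), (6, 1, 2076, 2, 7),
      (6, 2, 2076, 3, 6), (6, 3, 224, 3, 6), (7, 0, 8744, 0, 9), (7, 1, 2076, 2, 7),
      (7, 2, 281, 2, 7), (8, 0, 5600, 0, 9)])
    (by decide +kernel)

set_option maxRecDepth 100000 in
theorem cz_24_11 : pebbling (kneser 24 11) = (24).choose 11 :=
  check_class_zero (Q := 6000000) (L :=
    [(0, 11, 6000000, 0, 0), (1, 9, 51235, 10, 0), (1, 10, 1487650, 9, 0), (2, 9, 1000000, 9, 0),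
      (3, 7, 57040, 8, 2), (3, 8, 371840, 8, 1), (4, 5, 46465, 5, 6), (4, 6, 30355, 6, 4),
      (4, 7, 249955, 7, 2), (5, 4, 124970, 4, 7), (5, 5, 51755, 6, 4), (5, 6, 92940, 6, 3),
      (6, 3, 185900, 3, 8), (6, 4, 103525, 4, 7), (7, 2, 499954, 2, 9), (7, 3, 83341, 3, 8),
      (8, 1, 743750, 1, 10), (8, 2, 125625, 2, 9), (9, 0, 2975594, 0, 11), (9, 1, 137473, 1, 10),
      (10, 0, 500000, 0, 11)])
    (by decide +kernel)

set_option maxRecDepth 100000 in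
theorem cz_25_10 : pebbling (kneser 25 10) = (25).choose 10 :=
  check_class_zero (Q := 54054000) (L :=
    [(0, 10, 54054000, 0, 0), (1, 4, 17798, 5, 5), (1, 5, 26341, 9, 0), (1, 6, 25142, 8, 0),
      (1, 9, 36456, 8, 0), (2, 3, 17828, 5, 5), (2, 4, 17788, 5, 5), (2, 5, 36472, 8, 0),
      (2, 6, 1478, 7, 0), (3, 2, 17954, 5, 5), (3, 3, 17790, 5, 5), (3, 4, 17790, 3, 6),
      (3, 5, 9650, 7, 0), (3, 6, 36471, 6, 0), (3, 7, 36471, 5, 0), (4, 1, 17775, 3, 7),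
      (4, 2, 17814, 3, 7), (4, 3, 17790, 3, 6), (4, 4, 17790, 5, 5), (4, 5, 21585, 6, 0),
      (5, 0, 74750, 0, 10), (5, 1, 17924, 1, 9), (5, 2, 17791, 3, 6), (5, 3, 17791, 3, 6),
      (5, 4, 13850, 5, 5), (5, 5, 36450, 5, 0), (6, 0, 74848, 0, 10), (6, 1, 17791, 3, 7),
      (6, 2, 17791, 3, 7), (6, 3, 17791, 3, 6), (6, 4, 17791, 3, 6), (7, 0, 74807, 0, 10),
      (7, 1, 17791, 1, 9), (7, 2, 17790, 3, 7), (7, 3, 13834, 3, 6), (8, 0, 74773, 0, 10),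
      (8, 1, 17791, 1, 9), (8, 2, 5616, 2, 5), (9, 0, 54000, 0, 10)])
    (by decide +kernel)

set_option maxRecDepth 100000 in
theorem cz_30_11 : pebbling (kneser 30 11) = (30).choose 11 :=
  check_class_zero (Q := 3675672000) (L :=
    [(0, 11, 3675672000, 0, 0), (1, 2, 35640, 8, 3), (1, 3, 56426, 10, 0), (1, 4, 73096, 9, 0),
      (1, 5, 73095, 8, 0), (1, 6, 57190, 7, 0), (2, 1, 35640, 8, 3), (2, 2, 35655, 3, 8),
      (2, 3, 73096, 9, 0), (2, 4, 73096, 8, 0), (2, 5, 73096, 9, 0), (2, 6, 12655, 7, 0),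
      (2, 8, 73148, 4, 0), (3, 0, 149380, 0, 11), (3, 1, 35630, 5, 5), (3, 2, 35757, 8, 3),
      (3, 3, 73096, 8, 0), (3, 4, 73096, 7, 0), (3, 5, 47980, 7, 0), (3, 8, 73080, 7, 0),
      (4, 0, 149765, 0, 11), (4, 1, 35650, 2, 8), (4, 2, 35679, 5, 3), (4, 3, 73096, 7, 0),
      (4, 4, 73096, 6, 0), (4, 5, 10305, 6, 0), (5, 0, 149820, 0, 11), (5, 1, 35655, 3, 8),
      (5, 2, 35655, 4, 3), (5, 3, 73096, 6, 0), (5, 4, 19121, 6, 0), (5, 5, 73096, 4, 0),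
      (5, 6, 73147, 4, 0), (6, 0, 149985, 0, 11), (6, 1, 35656, 5, 6), (6, 2, 35657, 3, 3),
      (6, 3, 73096, 5, 0), (6, 4, 31101, 4, 0), (7, 0, 149941, 0, 11), (7, 1, 35655, 2, 8),
      (7, 2, 35657, 2, 4), (7, 3, 73094, 4, 0), (7, 4, 14063, 3, 0), (8, 0, 149952, 0, 11),
      (8, 1, 35656, 2, 3), (8, 2, 35651, 2, 8), (8, 3, 73080, 3, 0), (9, 0, 149919, 0, 11),
      (9, 1, 35651, 2, 3), (9, 2, 17836, 2, 4), (10, 0, 115500, 0, 11)])
    (by decide +kernel)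

set_option maxRecDepth 100000 in
theorem cz_31_13 : pebbling (kneser 31 13) = (31).choose 13 :=
  check_class_zero (Q := 122522400) (L :=
    [(0, 13, 122522400, 0, 0), (1, 7, 9580, 8, 5), (1, 8, 25112, 12, 0), (1, 9, 12228, 11, 0),
      (2, 6, 9560, 8, 5), (2, 7, 9560, 8, 5), (2, 8, 23246, 11, 0), (2, 10, 40194, 9, 0),
      (3, 5, 19600, 5, 8), (3, 6, 9560, 8, 5), (3, 7, 9560, 8, 5), (3, 8, 26645, 10, 0),
      (3, 10, 40275, 8, 0), (4, 4, 19650, 4, 9), (4, 5, 19600, 5, 8), (4, 6, 9560, 8, 5),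
      (4, 7, 9560, 9, 1), (4, 8, 30810, 9, 0), (4, 9, 40180, 8, 0), (5, 3, 19690, 3, 10),
      (5, 4, 19600, 4, 9), (5, 5, 19600, 5, 8), (5, 6, 9560, 8, 5), (5, 7, 9560, 6, 3),
      (5, 8, 40180, 8, 0), (6, 2, 19580, 4, 9), (6, 3, 19606, 3, 10), (6, 4, 19600, 4, 9),
      (6, 5, 19600, 5, 8), (6, 6, 3861, 6, 3), (7, 1, 19590, 4, 9), (7, 2, 19642, 4, 9),
      (7, 3, 19599, 4, 9), (7, 4, 19599, 4, 9), (7, 5, 9536, 5, 8), (8, 0, 82355, 0, 13),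
      (8, 1, 19613, 3, 10), (8, 2, 19600, 4, 9), (8, 3, 19600, 4, 9), (8, 4, 6880, 4, 9),
      (8, 5, 19600, 5, 8), (9, 0, 82446, 0, 13), (9, 1, 19600, 4, 9), (9, 2, 19600, 4, 9),
      (9, 3, 17839, 4, 9), (10, 0, 82472, 0, 13), (10, 1, 19600, 3, 10), (10, 2, 19600, 3, 10),
      (10, 3, 2280, 3, 10), (11, 0, 82381, 0, 13), (11, 1, 19600, 2, 10), (11, 2, 1155, 2, 10),
      (12, 0, 51480, 0, 13)])
    (by decide +kernel)

set_option maxRecDepth 100000 in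
theorem cz_35_15 : pebbling (kneser 35 15) = (35).choose 15 :=
  check_class_zero (Q := 1163962800) (L :=
    [(0, 15, 1163962800, 0, 0), (1, 10, 146480, 14, 0), (1, 11, 52052, 13, 0),
      (2, 9, 70221, 9, 5), (2, 10, 112925, 13, 0), (2, 12, 295119, 13, 0), (3, 8, 70210, 9, 5),
      (3, 9, 70221, 12, 1), (3, 10, 122665, 12, 0), (4, 6, 34254, 6, 9), (4, 8, 70217, 9, 5),
      (4, 9, 61650, 7, 5), (4, 10, 295105, 11, 0), (4, 11, 295317, 10, 0), (5, 5, 144145, 5, 10),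
      (5, 6, 70221, 9, 5), (5, 7, 70217, 9, 5), (5, 8, 70217, 7, 5), (5, 9, 70221, 7, 4),
      (5, 10, 295105, 10, 0), (6, 4, 144320, 4, 11), (6, 5, 143953, 4, 10), (6, 6, 70221, 9, 5),
      (6, 7, 70217, 7, 5), (6, 8, 58016, 9, 5), (6, 9, 70221, 7, 3), (7, 3, 144237, 5, 10),
      (7, 4, 143953, 4, 11), (7, 5, 143953, 5, 10), (7, 6, 70221, 7, 5), (7, 7, 17766, 7, 4),
      (8, 2, 143910, 5, 10), (8, 3, 143994, 5, 10), (8, 4, 143953, 4, 10), (8, 5, 116955, 4, 10),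
      (9, 1, 143920, 5, 10), (9, 2, 144088, 5, 10), (9, 3, 143952, 5, 10), (9, 4, 1151, 4, 11),
      (9, 5, 143950, 4, 10), (10, 0, 604950, 0, 15), (10, 1, 144121, 4, 11),
      (10, 2, 143953, 5, 10), (10, 3, 143952, 5, 10), (10, 4, 50757, 4, 10),
      (11, 0, 605490, 0, 15), (11, 1, 143953, 4, 10), (11, 2, 143953, 4, 10),
      (11, 3, 82623, 4, 10), (12, 0, 605040, 0, 15), (12, 1, 143953, 2, 12),
      (12, 2, 110366, 2, 12), (13, 0, 604980, 0, 15), (13, 1, 109526, 2, 12),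
      (14, 0, 300300, 0, 15)])
    (by decide +kernel)

set_option maxRecDepth 100000 in
theorem cz_39_17 : pebbling (kneser 39 17) = (39).choose 17 :=
  check_class_zero (Q := 8147739600) (L :=
    [(0, 17, 8147739600, 0, 0), (1, 11, 205130, 14, 3), (1, 12, 664078, 16, 0),
      (2, 10, 239575, 14, 3), (2, 11, 286044, 11, 5), (2, 12, 90651, 15, 0),
      (2, 13, 1041898, 14, 0), (3, 9, 239470, 14, 3), (3, 10, 286020, 11, 5),
      (3, 11, 328135, 13, 2), (3, 12, 133790, 14, 0), (3, 13, 1379313, 13, 0),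
      (4, 8, 160078, 8, 9), (4, 9, 286048, 11, 5), (4, 10, 328137, 13, 2), (4, 11, 70774, 13, 2),
      (4, 12, 1378993, 13, 0), (5, 7, 160062, 8, 9), (5, 8, 286048, 11, 5),
      (5, 9, 286034, 10, 5), (5, 10, 328132, 9, 5), (5, 11, 328137, 9, 5),
      (5, 12, 1379308, 12, 0), (6, 6, 160313, 8, 9), (6, 7, 286048, 11, 5),
      (6, 8, 328132, 10, 5), (6, 9, 328132, 11, 3), (6, 10, 255682, 11, 2),
      (6, 11, 328137, 9, 3), (7, 5, 50820, 5, 12), (7, 6, 160061, 8, 9), (7, 7, 328137, 10, 5),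
      (7, 8, 328136, 9, 5), (7, 9, 328136, 8, 5), (7, 10, 328175, 8, 5), (8, 4, 673452, 5, 12),
      (8, 5, 672680, 5, 12), (8, 6, 160066, 8, 9), (8, 7, 328132, 9, 5), (8, 8, 328132, 8, 5),
      (8, 9, 328132, 9, 3), (9, 3, 672665, 5, 12), (9, 4, 672818, 4, 12), (9, 5, 672680, 4, 12),
      (9, 6, 160065, 8, 7), (9, 7, 298620, 8, 5), (10, 3, 221832, 5, 12), (10, 5, 672680, 4, 12),
      (10, 6, 160065, 7, 9), (10, 7, 24775, 7, 5), (11, 1, 672680, 5, 12),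
      (11, 2, 524189, 5, 12), (11, 3, 672680, 5, 12), (11, 5, 586398, 4, 12),
      (12, 0, 2826930, 0, 17), (12, 1, 672862, 4, 12), (12, 2, 672680, 5, 12),
      (12, 3, 672680, 4, 12), (12, 4, 218374, 4, 12), (13, 0, 2827440, 0, 17),
      (13, 1, 672680, 4, 12), (13, 2, 672680, 4, 12), (13, 3, 358801, 4, 12),
      (14, 0, 2826964, 0, 17), (14, 1, 672680, 3, 13), (14, 3, 490957, 3, 13),
      (15, 0, 2826947, 0, 17), (15, 1, 508258, 2, 13), (16, 0, 1361360, 0, 17)])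
    (by decide +kernel)

end Pool.Agent.KS6_83.KG
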