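import Pool.Agent.KS6_83.KG.T1
import Pool.Agent.KS6_83.KG.T2
import Pool.Agent.KS6_83.KG.T3
import Pool.Agent.KS6_83.KG.T4
import Pool.Agent.KS6_83.KG.T5
import Pool.Agent.KS6_83.KG.T6

/-!
# Kneser graphs of Class 0
-/

set_option autoImplicit false

namespace Pool.Agent.KS6_83.KG

open Pool.Agent.R11.Kneser Finset

/-- The weights for `m ≥ 3 t`. -/
def omg (m t Q : ℕ) (i j : ℕ) : ℕ :=
  if i = 0 then (if j = t then Q else 0)
  else if i < t ∧ j = 0 then Q / (m - 2 * t + i).choose t else 0

theorem cert_large {m t : ℕ} (ht : 1 ≤ t) (hm : 3 * t ≤ m) :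
    Cert m t (∏ i ∈ Ico 1 t, (m - 2 * t + i).choose t)
      (omg m t (∏ i ∈ Ico 1 t, (m - 2 * t + i).choose t)) := by
  set Q := ∏ i ∈ Ico 1 t, (m - 2 * t + i).choose t with hQ
  have hQ0 : 0 < Q := Finset.prod_pos fun i _ => Nat.choose_pos (by omega)
  refine ⟨ht, by omega, hQ0, ?_, ?_, ?_, ?_, ?_⟩
  · intro j hj
    simp only [omg, if_true]
    rw [if_neg (by omega)]
  · simp [omg]
  · simp only [omg]
    rw [if_neg (by omega), if_neg (by omega)]
  · intro i hi hit
    rw [Finset.sum_eq_single 0]
    · simp only [omg]
      rw [if_neg (by omega), if_pos (by exact ⟨hit, trivial⟩), Nat.choose_zero_right, one_mul, Nat.sub_zero]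
      exact Nat.div_mul_cancel (Finset.dvd_prod_of_mem _ (Finset.mem_Ico.2 ⟨hi, hit⟩))
    · intro j _ hj
      simp only [omg]
      rw [if_neg (by omega), if_neg (fun h => hj h.2), zero_mul]
    · intro h
      exact absurd (Finset.mem_range.2 (by omega)) h
  · intro i j hi hit hij hpos
    by_cases hj : j = 0
    · subst hj
      refine ⟨0, t, by omega, by omega, by omega, by omega, ?_⟩
      simp only [omg]
      rw [if_neg (by omega), if_pos (by exact ⟨hit, trivial⟩), if_true, if_true]
      have h2 : 2 ≤ (m - 2 * t + i).choose t := by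
        have h3 : (t + 1).choose t ≤ (m - 2 * t + i).choose t :=
          Nat.choose_le_choose t (by omega)
        rw [Nat.choose_succ_self_right] at h3
        omega
      calc 2 * (Q / (m - 2 * t + i).choose t)
          ≤ (m - 2 * t + i).choose t * (Q / (m - 2 * t + i).choose t) :=
            Nat.mul_le_mul_right _ h2
        _ ≤ Q := Nat.mul_div_le _ _
    · exfalso
      simp only [omg] at hpos
      rw [if_neg (by omega), if_neg (fun h => hj h.2)] at hpos
      exact lt_irrefl 0 hpos

theorem cz_large {m t : ℕ} (ht : 1 ≤ t) (hm : 3 * t ≤ m) :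
    pebbling (kneser m t) = m.choose t := class_zero (cert_large ht hm)

theorem small {m t : ℕ} (ht3 : 3 ≤ t) (hm : 2 * t + 2 ≤ m) (hm3 : m < 3 * t)
    (h : t ≤ 11 ∨ (11 * t ≤ 5 * m + 1 ∧ (m - t).choose t ≤ 32767)) :
    pebbling (kneser m t) = m.choose t := by
  have ht21 : t ≤ 21 := by
    by_contra hcon
    push Not at hcon
    rcases h with h | ⟨h1, h2⟩
    · omega
    have h3 : (t + 5).choose t ≤ (m - t).choose t := Nat.choose_le_choose t (by omega)
    have h4 : (t + 5).choose t = (t + 5).choose 5 := by rw [Nat.choose_symm_add]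
    have h5 : (27 : ℕ).choose 5 ≤ (t + 5).choose 5 := Nat.choose_le_choose 5 (by omega)
    have h6 : (27 : ℕ).choose 5 = 80730 := by decide +kernel
    omega
  interval_cases t
  · have hm1 : 8 ≤ m := by omega
    have hm2 : m ≤ 8 := by omega
    clear h
    interval_cases m
    · exact cz_8_3
  · have hm1 : 10 ≤ m := by omega
    have hm2 : m ≤ 11 := by omega
    clear h
    interval_cases m
    · exact cz_10_4
    · exact cz_11_4
  · have hm1 : 12 ≤ m := by omega
    have hm2 : m ≤ 14 := by omega
    clear h
    interval_cases m
    · exact cz_12_5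
    · exact cz_13_5
    · exact cz_14_5
  · have hm1 : 14 ≤ m := by omega
    have hm2 : m ≤ 17 := by omega
    clear h
    interval_cases m
    · exact cz_14_6
    · exact cz_15_6
    · exact cz_16_6
    · exact cz_17_6
  · have hm1 : 16 ≤ m := by omega
    have hm2 : m ≤ 20 := by omega
    clear h
    interval_cases m
    · exact cz_16_7
    · exact cz_17_7
    · exact cz_18_7
    · exact cz_19_7
    · exact cz_20_7
  · have hm1 : 18 ≤ m := by omega
    have hm2 : m ≤ 23 := by omega
    clear h
    interval_cases m
    · exact cz_18_8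
    · exact cz_19_8
    · exact cz_20_8
    · exact cz_21_8
    · exact cz_22_8
    · exact cz_23_8
  · have hm1 : 20 ≤ m := by omega
    have hm2 : m ≤ 26 := by omega
    clear h
    interval_cases m
    · exact cz_20_9
    · exact cz_21_9
    · exact cz_22_9
    · exact cz_23_9
    · exact cz_24_9
    · exact cz_25_9
    · exact cz_26_9
  · have hm1 : 22 ≤ m := by omega
    have hm2 : m ≤ 29 := by omega
    clear h
    interval_cases m
    · exact cz_22_10
    · exact cz_23_10
    · exact cz_24_10
    · exact cz_25_10
    · exact cz_26_10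
    · exact cz_27_10
    · exact cz_28_10
    · exact cz_29_10
  · have hm1 : 24 ≤ m := by omega
    have hm2 : m ≤ 32 := by omega
    clear h
    interval_cases m
    · exact cz_24_11
    · exact cz_25_11
    · exact cz_26_11
    · exact cz_27_11
    · exact cz_28_11
    · exact cz_29_11
    · exact cz_30_11
    · exact cz_31_11
    · exact cz_32_11
  · have hm1 : 27 ≤ m := by omega
    have hm2 : m ≤ 30 := by
      by_contra hcon
      push Not at hcon
      rcases h with h | ⟨-, h2⟩
      · omega
      have h3 : (19 : ℕ).choose 12 ≤ (m - 12).choose 12 := Nat.choose_le_choose 12 (by omega)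
      have h4 : (19 : ℕ).choose 12 = 50388 := by decide +kernel
      omega
    clear h
    interval_cases m
    · exact cz_27_12
    · exact cz_28_12
    · exact cz_29_12
    · exact cz_30_12
  · have hm1 : 29 ≤ m := by omega
    have hm2 : m ≤ 32 := by
      by_contra hcon
      push Not at hcon
      rcases h with h | ⟨-, h2⟩
      · omega
      have h3 : (20 : ℕ).choose 13 ≤ (m - 13).choose 13 := Nat.choose_le_choose 13 (by omega)
      have h4 : (20 : ℕ).choose 13 = 77520 := by decide +kernel
      omega
    clear h
    interval_cases m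
    · exact cz_29_13
    · exact cz_30_13
    · exact cz_31_13
    · exact cz_32_13
  · have hm1 : 31 ≤ m := by omega
    have hm2 : m ≤ 33 := by
      by_contra hcon
      push Not at hcon
      rcases h with h | ⟨-, h2⟩
      · omega
      have h3 : (20 : ℕ).choose 14 ≤ (m - 14).choose 14 := Nat.choose_le_choose 14 (by omega)
      have h4 : (20 : ℕ).choose 14 = 38760 := by decide +kernel
      omega
    clear h
    interval_cases m
    · exact cz_31_14
    · exact cz_32_14
    · exact cz_33_14
  · have hm1 : 33 ≤ m := by omega
    have hm2 : m ≤ 35 := by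
      by_contra hcon
      push Not at hcon
      rcases h with h | ⟨-, h2⟩
      · omega
      have h3 : (21 : ℕ).choose 15 ≤ (m - 15).choose 15 := Nat.choose_le_choose 15 (by omega)
      have h4 : (21 : ℕ).choose 15 = 54264 := by decide +kernel
      omega
    clear h
    interval_cases m
    · exact cz_33_15
    · exact cz_34_15
    · exact cz_35_15
  · have hm1 : 35 ≤ m := by omega
    have hm2 : m ≤ 37 := by
      by_contra hcon
      push Not at hcon
      rcases h with h | ⟨-, h2⟩
      · omega
      have h3 : (22 : ℕ).choose 16 ≤ (m - 16).choose 16 := Nat.choose_le_choose 16 (by omega)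
      have h4 : (22 : ℕ).choose 16 = 74613 := by decide +kernel
      omega
    clear h
    interval_cases m
    · exact cz_35_16
    · exact cz_36_16
    · exact cz_37_16
  · have hm1 : 38 ≤ m := by omega
    have hm2 : m ≤ 39 := by
      by_contra hcon
      push Not at hcon
      rcases h with h | ⟨-, h2⟩
      · omega
      have h3 : (23 : ℕ).choose 17 ≤ (m - 17).choose 17 := Nat.choose_le_choose 17 (by omega)
      have h4 : (23 : ℕ).choose 17 = 100947 := by decide +kernel
      omega
    clear h
    interval_cases m
    · exact cz_38_17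
    · exact cz_39_17
  · have hm1 : 40 ≤ m := by omega
    have hm2 : m ≤ 40 := by
      by_contra hcon
      push Not at hcon
      rcases h with h | ⟨-, h2⟩
      · omega
      have h3 : (23 : ℕ).choose 18 ≤ (m - 18).choose 18 := Nat.choose_le_choose 18 (by omega)
      have h4 : (23 : ℕ).choose 18 = 33649 := by decide +kernel
      omega
    clear h
    interval_cases m
    · exact cz_40_18
  · have hm1 : 42 ≤ m := by omega
    have hm2 : m ≤ 42 := by
      by_contra hcon
      push Not at hcon
      rcases h with h | ⟨-, h2⟩
      · omega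
      have h3 : (24 : ℕ).choose 19 ≤ (m - 19).choose 19 := Nat.choose_le_choose 19 (by omega)
      have h4 : (24 : ℕ).choose 19 = 42504 := by decide +kernel
      omega
    clear h
    interval_cases m
    · exact cz_42_19
  · have hm1 : 44 ≤ m := by omega
    have hm2 : m ≤ 44 := by
      by_contra hcon
      push Not at hcon
      rcases h with h | ⟨-, h2⟩
      · omega
      have h3 : (25 : ℕ).choose 20 ≤ (m - 20).choose 20 := Nat.choose_le_choose 20 (by omega)
      have h4 : (25 : ℕ).choose 20 = 53130 := by decide +kernel
      omega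
    clear h
    interval_cases m
    · exact cz_44_20
  · have hm1 : 46 ≤ m := by omega
    have hm2 : m ≤ 46 := by
      by_contra hcon
      push Not at hcon
      rcases h with h | ⟨-, h2⟩
      · omega
      have h3 : (26 : ℕ).choose 21 ≤ (m - 21).choose 21 := Nat.choose_le_choose 21 (by omega)
      have h4 : (26 : ℕ).choose 21 = 65780 := by decide +kernel
      omega
    clear h
    interval_cases m
    · exact cz_46_21

theorem all_small {m t : ℕ} (ht : 1 ≤ t) (hm : 2 * t + 2 ≤ m)
    (h : t ≤ 11 ∨ (11 * t ≤ 5 * m + 1 ∧ (m - t).choose t ≤ 32767)) :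
    pebbling (kneser m t) = m.choose t := by
  rcases Nat.lt_or_ge m (3 * t) with h1 | h1
  · exact small (by omega) hm h1 h
  · exact cz_large ht h1

end Pool.Agent.KS6_83.KG
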