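import Pool.Graph.R_seed8.R11.KneserTab

/-!
# Rational weight certificates and the Kneser graphs of diameter three
-/

set_option autoImplicit false

namespace Pool.Agent.KS6_83.KG

open Pool.Agent.R11.Kneser Finset

/-- Certificates with rational weights. -/
structure QCert (m t : ℕ) (w : ℕ → ℕ → ℚ) : Prop where
  ht : 1 ≤ t
  hm : 2 * t ≤ m
  nn : ∀ i j, 0 ≤ w i j
  h0 : ∀ j < t, w 0 j = 0
  h0t : w 0 t = 1
  ht0 : w t 0 = 0
  hsum : ∀ i, 1 ≤ i → i < t → ∑ j ∈ range (t + 1),
    w i j * (((t - i).choose j * (m - 2 * t + i).choose (t - j) : ℕ) : ℚ) = 1
  hpar : ∀ i j, 1 ≤ i → i < t → i + j ≤ t → 0 < w i j → ∃ i' j', i + i' ≤ t ∧ j + j' ≤ t ∧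
    i' + j' ≤ t ∧ (t - i - j) + (t - i' - j') ≤ m - 2 * t ∧ 2 * w i j ≤ w i' j'

/-- the common denominator -/
def QQ (t : ℕ) (w : ℕ → ℕ → ℚ) : ℕ := ∏ i ∈ range (t + 1), ∏ j ∈ range (t + 1), (w i j).den

/-- the integral weights -/
def omq (t : ℕ) (w : ℕ → ℕ → ℚ) (i j : ℕ) : ℕ := (w i j).num.toNat * (QQ t w / (w i j).den)

theorem QQ_pos (t : ℕ) (w : ℕ → ℕ → ℚ) : 0 < QQ t w :=
  Finset.prod_pos fun i _ => Finset.prod_pos fun j _ => (w i j).pos

theorem omq_cast {t : ℕ} {w : ℕ → ℕ → ℚ} (nn : ∀ i j, 0 ≤ w i j) {i j : ℕ} (hi : i ≤ t)
    (hj : j ≤ t) : (omq t w i j : ℚ) = w i j * QQ t w := by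
  have hdvd : (w i j).den ∣ QQ t w := by
    unfold QQ
    exact (Finset.dvd_prod_of_mem (fun j => (w i j).den) (Finset.mem_range.2 (by omega))).trans
      (Finset.dvd_prod_of_mem (fun i => ∏ j ∈ range (t + 1), (w i j).den)
        (Finset.mem_range.2 (by omega)))
  unfold omq
  have hd : ((w i j).den : ℚ) ≠ 0 := by exact_mod_cast (w i j).den_nz
  rw [Nat.cast_mul, Nat.cast_div hdvd hd]
  have h1 : (((w i j).num.toNat : ℕ) : ℚ) = ((w i j).num : ℚ) := by
    have h2 : 0 ≤ (w i j).num := Rat.num_nonneg.2 (nn i j)
    have h3 : (((w i j).num.toNat : ℕ) : ℤ) = (w i j).num := Int.toNat_of_nonneg h2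
    exact_mod_cast h3
  rw [h1]
  conv_rhs => rw [← Rat.num_div_den (w i j)]
  ring

theorem QCert.cert {m t : ℕ} {w : ℕ → ℕ → ℚ} (h : QCert m t w) :
    Cert m t (QQ t w) (omq t w) := by
  have hQ : (0 : ℚ) < QQ t w := by exact_mod_cast QQ_pos t w
  refine ⟨h.ht, h.hm, QQ_pos t w, ?_, ?_, ?_, ?_, ?_⟩
  · intro j hj
    have := omq_cast h.nn (Nat.zero_le t) hj.le
    rw [h.h0 j hj, zero_mul] at this
    exact_mod_cast this
  · have := omq_cast h.nn (Nat.zero_le t) le_rfl
    rw [h.h0t, one_mul] at this
    exact_mod_cast this
  · have := omq_cast h.nn le_rfl (Nat.zero_le t)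
    rw [h.ht0, zero_mul] at this
    exact_mod_cast this
  · intro i hi hit
    have h1 : ((∑ j ∈ range (t + 1),
        omq t w i j * ((t - i).choose j * (m - 2 * t + i).choose (t - j)) : ℕ) : ℚ) = QQ t w := by
      rw [Nat.cast_sum]
      calc ∑ j ∈ range (t + 1), ((omq t w i j * ((t - i).choose j *
            (m - 2 * t + i).choose (t - j)) : ℕ) : ℚ)
          = ∑ j ∈ range (t + 1), (w i j *
            (((t - i).choose j * (m - 2 * t + i).choose (t - j) : ℕ) : ℚ)) * QQ t w := by
              refine Finset.sum_congr rfl fun j hj => ?_
              rw [Nat.cast_mul, omq_cast h.nn hit.le (by have := Finset.mem_range.1 hj; omega)]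
              ring
        _ = QQ t w := by rw [← Finset.sum_mul, h.hsum i hi hit, one_mul]
    exact_mod_cast h1
  · intro i j hi hit hij hpos
    have h1 : (0 : ℚ) < w i j := by
      have h2 := omq_cast h.nn hit.le (by omega : j ≤ t)
      have h3 : (0 : ℚ) < (omq t w i j : ℚ) := by exact_mod_cast hpos
      rw [h2] at h3
      exact (pos_iff_pos_of_mul_pos h3).2 hQ
    obtain ⟨i', j', a1, a2, a3, a4, a5⟩ := h.hpar i j hi hit hij h1
    refine ⟨i', j', a1, a2, a3, a4, ?_⟩
    have h4 : ((2 * omq t w i j : ℕ) : ℚ) ≤ (omq t w i' j' : ℚ) := by
      rw [Nat.cast_mul, omq_cast h.nn hit.le (by omega : j ≤ t),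
        omq_cast h.nn (by omega : i' ≤ t) (by omega : j' ≤ t)]
      have := mul_le_mul_of_nonneg_right a5 hQ.le
      push_cast
      linarith
    exact_mod_cast h4

/-- The weights for the diameter three. -/
def w3 (k t : ℕ) (i j : ℕ) : ℚ :=
  if i = 0 then (if j = t then 1 else 0)
  else if t ≤ i then 0
  else if t - k + 1 ≤ i then (if j = 0 then 1 / ((k + i).choose t : ℚ) else 0)
  else if i + 1 ≤ k then
    (if j = t - i - 1 then 1 / (((t - i) * (k + i).choose (i + 1) : ℕ) : ℚ) else 0)
  else if t = 2 * k then
    (if j = 0 then 1 / 2 else if j = k then 1 / (2 * ((2 * k).choose k : ℚ)) else 0)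
  else if i = k then (if j = k + 1 then 1 / ((2 * k).choose k : ℚ) else 0)
  else (if j = 0 then 1 / 2 else if j = k then 1 / (2 * ((2 * k + 1).choose (k + 1) : ℚ)) else 0)

theorem w3_nonneg (k t i j : ℕ) : 0 ≤ w3 k t i j := by
  unfold w3
  split_ifs <;> positivity

theorem key_ineq {k t i : ℕ} (hk : 3 ≤ k) (hi : 1 ≤ i) (hi2 : i + k ≤ t) (ht : t ≤ 2 * k + 1) :
    2 * (t + 1) ≤ (t - i) * (k + i).choose (i + 1) := by
  have h1 : (k + 1).choose (k - 1) ≤ (k + i).choose (k - 1) := Nat.choose_le_choose _ (by omega)
  have h2 : (k + i).choose (i + 1) = (k + i).choose (k - 1) := by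
    rw [← Nat.choose_symm (by omega : k - 1 ≤ k + i)]
    congr 1
    omega
  have h3 : (k + 1).choose (k - 1) = (k + 1).choose 2 := by
    rw [← Nat.choose_symm (by omega : 2 ≤ k + 1)]
    congr 1
  have h4 : 2 * (k + 1).choose 2 = (k + 1) * k := by
    rw [Nat.choose_two_right, Nat.add_sub_cancel]
    exact Nat.mul_div_cancel' (by
      have := Nat.even_mul_succ_self k
      rw [mul_comm] at this
      exact this.two_dvd)
  rw [h2]
  have h5 : k ≤ t - i := by omega
  have h6 : k * (k + 1).choose 2 ≤ (t - i) * (k + i).choose (k - 1) :=
    Nat.mul_le_mul h5 (h3 ▸ h1)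
  refine le_trans ?_ h6
  nlinarith

theorem qcert3 {k t : ℕ} (hk : 3 ≤ k) (hkt : k < t) (ht : t ≤ 2 * k + 1) :
    QCert (2 * t + k) t (w3 k t) := by
  have hsub : 2 * t + k - 2 * t = k := by omega
  have hc0 : (2 : ℚ) ≤ ((2 * k).choose k : ℚ) := by
    have h1 : 4 ≤ (2 * k).choose k := by
      have h2 : (2 * k).choose 1 ≤ (2 * k).choose k := by
        have := Nat.choose_le_centralBinom 1 k
        rwa [Nat.centralBinom] at this
      rw [Nat.choose_one_right] at h2
      omega
    have : (4 : ℚ) ≤ ((2 * k).choose k : ℚ) := by exact_mod_cast h1
    linarith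
  have hc0' : (4 : ℚ) ≤ ((2 * k).choose k : ℚ) := by
    have h2 : (2 * k).choose 1 ≤ (2 * k).choose k := by
      have := Nat.choose_le_centralBinom 1 k
      rwa [Nat.centralBinom] at this
    rw [Nat.choose_one_right] at h2
    have h1 : 4 ≤ (2 * k).choose k := by omega
    exact_mod_cast h1
  have hc1 : ((2 * k).choose k : ℚ) ≤ ((2 * k + 1).choose (k + 1) : ℚ) := by
    have : (2 * k).choose k ≤ (2 * k + 1).choose (k + 1) := by
      rw [Nat.choose_succ_succ]
      omega
    exact_mod_cast this
  refine ⟨by omega, by omega, w3_nonneg k t, ?_, ?_, ?_, ?_, ?_⟩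
  · intro j hj
    unfold w3
    rw [if_pos rfl, if_neg (by omega)]
  · unfold w3
    rw [if_pos rfl, if_pos rfl]
  · unfold w3
    rw [if_neg (by omega), if_pos le_rfl]
  · intro i hi hit
    rw [hsub]
    by_cases h1 : t - k + 1 ≤ i
    · rw [Finset.sum_eq_single 0]
      · unfold w3
        rw [if_neg (by omega), if_neg (by omega), if_pos h1, if_pos rfl, Nat.choose_zero_right,
          one_mul, Nat.sub_zero]
        have : ((k + i).choose t : ℚ) ≠ 0 := by
          exact_mod_cast (Nat.choose_pos (by omega : t ≤ k + i)).ne'
        field_simp
      · intro j _ hj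
        unfold w3
        rw [if_neg (by omega), if_neg (by omega), if_pos h1, if_neg hj, zero_mul]
      · intro h; exact absurd (Finset.mem_range.2 (by omega)) h
    · by_cases h2 : i + 1 ≤ k
      · rw [Finset.sum_eq_single (t - i - 1)]
        · unfold w3
          rw [if_neg (by omega), if_neg (by omega), if_neg h1, if_pos h2, if_pos rfl]
          have e1 : (t - i).choose (t - i - 1) = t - i := by
            rw [← Nat.choose_symm (by omega : t - i - 1 ≤ t - i)]
            rw [show t - i - (t - i - 1) = 1 by omega, Nat.choose_one_right]
          have e2 : t - (t - i - 1) = i + 1 := by omega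
          rw [e1, e2]
          have : (((t - i) * (k + i).choose (i + 1) : ℕ) : ℚ) ≠ 0 := by
            have h3 : 0 < (t - i) * (k + i).choose (i + 1) :=
              Nat.mul_pos (by omega) (Nat.choose_pos (by omega))
            exact_mod_cast h3.ne'
          rw [one_div, inv_mul_cancel₀ this]
        · intro j _ hj
          unfold w3
          rw [if_neg (by omega), if_neg (by omega), if_neg h1, if_pos h2, if_neg hj, zero_mul]
        · intro h; exact absurd (Finset.mem_range.2 (by omega)) h
      · by_cases h3 : t = 2 * k
        · obtain rfl : i = k := by omega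
          have e0 : w3 i t i 0 = 1 / 2 := by
            unfold w3
            rw [if_neg (by omega), if_neg (by omega), if_neg h1, if_neg h2, if_pos h3, if_pos rfl]
          have e1 : w3 i t i i = 1 / (2 * ((2 * i).choose i : ℚ)) := by
            unfold w3
            rw [if_neg (by omega), if_neg (by omega), if_neg h1, if_neg h2, if_pos h3,
              if_neg (by omega), if_pos rfl]
          rw [← Finset.sum_subset (s₁ := {0, i}) (by
              intro x hx
              simp only [Finset.mem_insert, Finset.mem_singleton] at hx
              exact Finset.mem_range.2 (by omega)) (by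
              intro x _ hx
              simp only [Finset.mem_insert, Finset.mem_singleton, not_or] at hx
              unfold w3
              rw [if_neg (by omega), if_neg (by omega), if_neg h1, if_neg h2, if_pos h3,
                if_neg hx.1, if_neg hx.2, zero_mul]),
            Finset.sum_pair (by omega), e0, e1]
          subst h3
          rw [show 2 * i - i = i by omega, Nat.choose_zero_right, Nat.sub_zero,
            show i + i = 2 * i by omega, Nat.choose_self, Nat.choose_self]
          have : ((2 * i).choose i : ℚ) ≠ 0 := by linarith
          push_cast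
          field_simp
          norm_num
        · have h4 : t = 2 * k + 1 := by omega
          by_cases h5 : i = k
          · subst h5
            rw [Finset.sum_eq_single (i + 1)]
            · unfold w3
              rw [if_neg (by omega), if_neg (by omega), if_neg h1, if_neg h2, if_neg h3,
                if_pos rfl, if_pos rfl]
              subst h4
              rw [show 2 * i + 1 - i = i + 1 by omega, Nat.choose_self,
                show 2 * i + 1 - (i + 1) = i by omega, show i + i = 2 * i by omega]
              have : ((2 * i).choose i : ℚ) ≠ 0 := by linarith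
              push_cast
              field_simp
            · intro j _ hj
              unfold w3
              rw [if_neg (by omega), if_neg (by omega), if_neg h1, if_neg h2, if_neg h3,
                if_pos rfl, if_neg hj, zero_mul]
            · intro h; exact absurd (Finset.mem_range.2 (by omega)) h
          · obtain rfl : i = k + 1 := by omega
            have e0 : w3 k t (k + 1) 0 = 1 / 2 := by
              unfold w3
              rw [if_neg (by omega), if_neg (by omega), if_neg h1, if_neg h2, if_neg h3,
                if_neg h5, if_pos rfl]
            have e1 : w3 k t (k + 1) k = 1 / (2 * ((2 * k + 1).choose (k + 1) : ℚ)) := by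
              unfold w3
              rw [if_neg (by omega), if_neg (by omega), if_neg h1, if_neg h2, if_neg h3,
                if_neg h5, if_neg (by omega), if_pos rfl]
            rw [← Finset.sum_subset (s₁ := {0, k}) (by
                intro x hx
                simp only [Finset.mem_insert, Finset.mem_singleton] at hx
                exact Finset.mem_range.2 (by omega)) (by
                intro x _ hx
                simp only [Finset.mem_insert, Finset.mem_singleton, not_or] at hx
                unfold w3
                rw [if_neg (by omega), if_neg (by omega), if_neg h1, if_neg h2, if_neg h3,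
                  if_neg h5, if_neg hx.1, if_neg hx.2, zero_mul]),
              Finset.sum_pair (by omega), e0, e1]
            subst h4
            rw [show 2 * k + 1 - (k + 1) = k by omega, Nat.choose_zero_right, Nat.sub_zero,
              show k + (k + 1) = 2 * k + 1 by omega, Nat.choose_self, Nat.choose_self,
              show 2 * k + 1 - k = k + 1 by omega]
            have : ((2 * k + 1).choose (k + 1) : ℚ) ≠ 0 := by linarith
            push_cast
            field_simp
            norm_num
  · intro i j hi hit hij hpos
    rw [hsub]
    by_cases h1 : t - k + 1 ≤ i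
    · have hj : j = 0 := by
        by_contra hj
        unfold w3 at hpos
        rw [if_neg (by omega), if_neg (by omega), if_pos h1, if_neg hj] at hpos
        exact lt_irrefl _ hpos
      subst hj
      refine ⟨0, t, by omega, by omega, by omega, by omega, ?_⟩
      unfold w3
      rw [if_neg (by omega), if_neg (by omega), if_pos h1, if_pos rfl, if_pos rfl, if_pos rfl]
      have h2 : 2 ≤ (k + i).choose t := by
        have h3 : (t + 1).choose t ≤ (k + i).choose t := Nat.choose_le_choose t (by omega)
        rw [Nat.choose_succ_self_right] at h3
        omega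
      have h3 : (2 : ℚ) ≤ ((k + i).choose t : ℚ) := by exact_mod_cast h2
      rw [mul_one_div, div_le_one (by linarith)]
      exact h3
    · by_cases h2 : i + 1 ≤ k
      · have hj : j = t - i - 1 := by
          by_contra hj
          unfold w3 at hpos
          rw [if_neg (by omega), if_neg (by omega), if_neg h1, if_pos h2, if_neg hj] at hpos
          exact lt_irrefl _ hpos
        subst hj
        refine ⟨t - k + 1, 0, by omega, by omega, by omega, by omega, ?_⟩
        unfold w3
        rw [if_neg (by omega), if_neg (by omega), if_neg h1, if_pos h2, if_pos rfl,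
          if_neg (by omega), if_neg (by omega), if_pos le_rfl, if_pos rfl,
          show k + (t - k + 1) = t + 1 by omega, Nat.choose_succ_self_right]
        have h3 := key_ineq hk hi (by omega : i + k ≤ t) ht
        have h4 : (2 * ((t + 1 : ℕ) : ℚ)) ≤ (((t - i) * (k + i).choose (i + 1) : ℕ) : ℚ) := by
          exact_mod_cast h3
        have h5 : (0 : ℚ) < ((t + 1 : ℕ) : ℚ) := by positivity
        rw [mul_one_div, div_le_div_iff₀ (by linarith) h5, one_mul]
        exact h4
      · by_cases h3 : t = 2 * k
        · obtain rfl : i = k := by omega
          have e0 : w3 i t i 0 = 1 / 2 := by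
            unfold w3
            rw [if_neg (by omega), if_neg (by omega), if_neg h1, if_neg h2, if_pos h3, if_pos rfl]
          by_cases hj0 : j = 0
          · subst hj0
            refine ⟨0, t, by omega, by omega, by omega, by omega, ?_⟩
            rw [e0]
            unfold w3
            rw [if_pos rfl, if_pos rfl]
            norm_num
          · have hj : j = i := by
              by_contra hj
              unfold w3 at hpos
              rw [if_neg (by omega), if_neg (by omega), if_neg h1, if_neg h2, if_pos h3,
                if_neg hj0, if_neg hj] at hpos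
              exact lt_irrefl _ hpos
            subst hj
            refine ⟨j, 0, by omega, by omega, by omega, by omega, ?_⟩
            rw [e0]
            unfold w3
            rw [if_neg (by omega), if_neg (by omega), if_neg h1, if_neg h2, if_pos h3,
              if_neg hj0, if_pos rfl]
            rw [mul_one_div, div_le_div_iff₀ (by linarith) (by norm_num)]
            linarith
        · have h4 : t = 2 * k + 1 := by omega
          have e0 : w3 k t (k + 1) 0 = 1 / 2 := by
            unfold w3
            rw [if_neg (by omega), if_neg (by omega), if_neg (by omega), if_neg (by omega),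
              if_neg h3, if_neg (by omega), if_pos rfl]
          have e2 : w3 k t k (k + 1) = 1 / ((2 * k).choose k : ℚ) := by
            unfold w3
            rw [if_neg (by omega), if_neg (by omega), if_neg (by omega), if_neg (by omega),
              if_neg h3, if_pos rfl, if_pos rfl]
          by_cases h5 : i = k
          · subst h5
            have hj : j = i + 1 := by
              by_contra hj
              unfold w3 at hpos
              rw [if_neg (by omega), if_neg (by omega), if_neg h1, if_neg h2, if_neg h3,
                if_pos rfl, if_neg hj] at hpos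
              exact lt_irrefl _ hpos
            subst hj
            refine ⟨i + 1, 0, by omega, by omega, by omega, by omega, ?_⟩
            rw [e0, e2, mul_one_div, div_le_div_iff₀ (by linarith) (by norm_num)]
            linarith
          · obtain rfl : i = k + 1 := by omega
            by_cases hj0 : j = 0
            · subst hj0
              refine ⟨0, t, by omega, by omega, by omega, by omega, ?_⟩
              rw [e0]
              unfold w3
              rw [if_pos rfl, if_pos rfl]
              norm_num
            · have hj : j = k := by
                by_contra hj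
                unfold w3 at hpos
                rw [if_neg (by omega), if_neg (by omega), if_neg h1, if_neg h2, if_neg h3,
                  if_neg h5, if_neg hj0, if_neg hj] at hpos
                exact lt_irrefl _ hpos
              subst hj
              refine ⟨j, j + 1, by omega, by omega, by omega, by omega, ?_⟩
              rw [e2]
              unfold w3
              rw [if_neg (by omega), if_neg (by omega), if_neg h1, if_neg h2, if_neg h3,
                if_neg h5, if_neg hj0, if_pos rfl]
              rw [mul_one_div, div_le_div_iff₀ (by linarith) (by linarith)]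
              linarith

theorem cz_three {m t : ℕ} (hm : 2 * t + 3 ≤ m) (hm3 : m < 3 * t) (hd : 5 * t ≤ 2 * m + 1) :
    pebbling (kneser m t) = m.choose t := by
  have h := (qcert3 (k := m - 2 * t) (t := t) (by omega) (by omega) (by omega)).cert
  rw [show 2 * t + (m - 2 * t) = m by omega] at h
  exact class_zero h

end Pool.Agent.KS6_83.KG
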