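import Pool.Graph.R_seed8.R11.KneserTab

/-!
# Weight tables for Kneser graphs
-/

set_option autoImplicit false

namespace Pool.Agent.KS6_83.KG

open Pool.Agent.R11.Kneser

set_option maxRecDepth 100000 in
theorem cz_11_4 : pebbling (kneser 11 4) = (11).choose 4 :=
  check_class_zero (Q := 150) (L :=
    [(0, 4, 150, 0, 0), (1, 0, 14, 0, 4), (1, 1, 4, 3, 0), (1, 2, 4, 2, 0), (1, 3, 4, 3, 0),
      (2, 0, 10, 0, 4), (2, 1, 4, 2, 0), (2, 2, 2, 2, 0), (3, 0, 10, 0, 4)])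
    (by decide +kernel)

set_option maxRecDepth 100000 in
theorem cz_16_6 : pebbling (kneser 16 6) = (16).choose 6 :=
  check_class_zero (Q := 420000) (L :=
    [(0, 6, 420000, 0, 0), (1, 1, 1140, 4, 2), (1, 2, 2307, 5, 0), (1, 3, 2307, 4, 0),
      (1, 4, 1365, 5, 0), (2, 0, 4770, 0, 6), (2, 1, 1125, 2, 3), (2, 2, 2263, 4, 0),
      (2, 3, 2307, 4, 0), (3, 0, 4740, 0, 6), (3, 1, 1125, 3, 2), (3, 2, 2307, 3, 0),
      (3, 3, 2106, 3, 0), (4, 0, 4735, 0, 6), (4, 1, 1125, 2, 3), (4, 2, 2306, 2, 0),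
      (5, 0, 4730, 0, 6), (5, 1, 180, 1, 2)])
    (by decide +kernel)

set_option maxRecDepth 100000 in
theorem cz_17_7 : pebbling (kneser 17 7) = (17).choose 7 :=
  check_class_zero (Q := 360000) (L :=
    [(0, 7, 360000, 0, 0), (1, 3, 2922, 3, 4), (1, 4, 4878, 6, 0), (1, 6, 2220, 5, 0),
      (2, 2, 2925, 2, 5), (2, 3, 2922, 3, 4), (2, 4, 2495, 5, 0), (2, 5, 5990, 5, 0),
      (3, 1, 2927, 2, 5), (3, 2, 2922, 2, 5), (3, 3, 2055, 3, 4), (3, 4, 5990, 4, 0),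
      (4, 0, 12282, 0, 7), (4, 1, 2922, 2, 5), (4, 2, 2922, 2, 5), (4, 3, 2922, 3, 4),
      (5, 0, 12282, 0, 7), (5, 1, 2922, 2, 5), (5, 2, 1752, 2, 5), (6, 0, 10000, 0, 7)])
    (by decide +kernel)

set_option maxRecDepth 100000 in
theorem cz_19_8 : pebbling (kneser 19 8) = (19).choose 8 :=
  check_class_zero (Q := 1260000) (L :=
    [(0, 8, 1260000, 0, 0), (1, 4, 2616, 5, 3), (1, 5, 13655, 7, 0), (1, 6, 510, 6, 0),
      (2, 3, 8574, 3, 5), (2, 4, 464, 6, 1), (2, 5, 17562, 6, 0), (3, 2, 8574, 3, 5),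
      (3, 3, 8567, 2, 5), (3, 4, 4120, 4, 3), (3, 5, 17562, 5, 0), (4, 1, 8610, 3, 5),
      (4, 2, 8566, 3, 5), (4, 3, 8567, 2, 5), (4, 4, 4176, 2, 3), (5, 0, 36060, 0, 8),
      (5, 1, 8567, 3, 5), (5, 2, 8567, 2, 5), (5, 3, 5334, 2, 5), (6, 0, 36016, 0, 8),
      (6, 1, 8567, 2, 5), (6, 2, 3798, 2, 5), (7, 0, 28000, 0, 8)])
    (by decide +kernel)

set_option maxRecDepth 100000 in
theorem cz_22_9 : pebbling (kneser 22 9) = (22).choose 9 :=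
  check_class_zero (Q := 4620000) (L :=
    [(0, 9, 4620000, 0, 0), (1, 4, 6444, 4, 5), (1, 5, 10243, 8, 0), (1, 6, 880, 7, 0),
      (1, 7, 13181, 6, 0), (2, 3, 6442, 4, 5), (2, 4, 6432, 4, 5), (2, 5, 3802, 7, 0),
      (2, 6, 13187, 6, 0), (3, 2, 6461, 4, 5), (3, 3, 6432, 3, 6), (3, 4, 6432, 4, 5),
      (3, 5, 5405, 6, 0), (3, 6, 13185, 6, 0), (4, 1, 6526, 3, 6), (4, 2, 6432, 4, 5),
      (4, 3, 6432, 4, 5), (4, 4, 4817, 4, 5), (4, 5, 13187, 5, 0), (5, 0, 27552, 0, 9),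
      (5, 1, 6432, 1, 7), (5, 2, 6432, 4, 5), (5, 3, 6432, 4, 5), (5, 4, 6432, 4, 5),
      (6, 0, 27087, 0, 9), (6, 1, 6432, 3, 6), (6, 2, 6432, 3, 6), (6, 3, 5549, 3, 6),
      (7, 0, 27042, 0, 9), (7, 1, 6432, 2, 6), (7, 2, 3061, 2, 6), (8, 0, 21000, 0, 9)])
    (by decide +kernel)

set_option maxRecDepth 100000 in
theorem cz_25_11 : pebbling (kneser 25 11) = (25).choose 11 :=
  check_class_zero (Q := 1638000) (L :=
    [(0, 11, 1638000, 0, 0), (1, 8, 9100, 10, 0), (2, 7, 3742, 9, 1), (2, 8, 7891, 9, 0),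
      (2, 9, 25425, 9, 0), (3, 5, 2950, 5, 6), (3, 6, 3475, 8, 2), (3, 7, 3165, 6, 3),
      (3, 8, 25460, 8, 0), (4, 4, 2972, 5, 6), (4, 5, 2950, 5, 6), (4, 6, 6045, 6, 3),
      (4, 7, 6049, 5, 3), (5, 3, 12456, 3, 8), (5, 4, 2950, 5, 6), (5, 5, 4145, 6, 3),
      (5, 6, 6045, 6, 2), (6, 2, 12420, 2, 9), (6, 3, 12400, 3, 8), (6, 4, 2210, 4, 7),
      (7, 1, 12450, 3, 8), (7, 2, 12400, 3, 8), (7, 3, 4690, 3, 8), (8, 0, 52185, 0, 11),
      (8, 1, 12400, 3, 8), (8, 2, 7131, 2, 9), (9, 0, 52119, 0, 11), (9, 1, 7671, 2, 9),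
      (10, 0, 21000, 0, 11)])
    (by decide +kernel)

set_option maxRecDepth 100000 in
theorem cz_26_10 : pebbling (kneser 26 10) = (26).choose 10 :=
  check_class_zero (Q := 86486400) (L :=
    [(0, 10, 86486400, 0, 0), (1, 3, 9778, 6, 4), (1, 4, 14048, 9, 0), (1, 5, 19866, 8, 0),
      (1, 6, 5767, 7, 0), (1, 8, 19864, 8, 0), (2, 2, 9680, 6, 4), (2, 3, 9731, 6, 4),
      (2, 4, 19864, 8, 0), (2, 5, 1272, 7, 0), (2, 6, 19864, 6, 0), (3, 1, 9666, 6, 4),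
      (3, 2, 9784, 1, 8), (3, 3, 9690, 6, 4), (3, 4, 19863, 7, 0), (3, 5, 5277, 6, 0),
      (4, 0, 40680, 0, 10), (4, 1, 9842, 6, 4), (4, 2, 9688, 1, 8), (4, 3, 9691, 6, 4),
      (4, 4, 17796, 6, 0), (5, 0, 41135, 0, 10), (5, 1, 9691, 1, 8), (5, 2, 9691, 1, 8),
      (5, 3, 9691, 3, 4), (5, 4, 15324, 5, 0), (6, 0, 40823, 0, 10), (6, 1, 9690, 1, 8),
      (6, 2, 9691, 1, 5), (6, 3, 8878, 3, 4), (6, 4, 19867, 4, 0), (7, 0, 40764, 0, 10),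
      (7, 1, 9690, 1, 8), (7, 2, 9690, 1, 5), (7, 3, 9691, 3, 4), (8, 0, 40733, 0, 10),
      (8, 1, 9691, 1, 8), (8, 2, 2301, 1, 5), (9, 0, 28800, 0, 10)])
    (by decide +kernel)

set_option maxRecDepth 100000 in
theorem cz_31_11 : pebbling (kneser 31 11) = (31).choose 11 :=
  check_class_zero (Q := 34918884000) (L :=
    [(0, 11, 34918884000, 0, 0), (1, 1, 112320, 3, 8), (1, 2, 225360, 10, 0),
      (1, 3, 231192, 9, 0), (1, 4, 231141, 9, 0), (1, 5, 231140, 8, 0), (1, 6, 231140, 9, 0),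
      (1, 7, 130131, 7, 0), (2, 0, 473715, 0, 11), (2, 1, 112740, 2, 8), (2, 2, 231141, 9, 0),
      (2, 3, 231141, 9, 0), (2, 4, 231141, 8, 0), (2, 5, 211665, 6, 0), (2, 6, 231135, 7, 0),
      (2, 8, 231517, 7, 0), (3, 0, 472780, 0, 11), (3, 1, 112735, 8, 3), (3, 2, 231184, 8, 0),
      (3, 3, 231140, 7, 0), (3, 4, 231141, 6, 0), (3, 5, 231140, 5, 0), (3, 6, 99070, 8, 0),
      (3, 8, 231140, 5, 0), (4, 0, 473781, 0, 11), (4, 1, 112845, 4, 4), (4, 2, 231140, 7, 0),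
      (4, 3, 231140, 7, 0), (4, 4, 231141, 5, 0), (4, 5, 191237, 5, 0), (5, 0, 473814, 0, 11),
      (5, 1, 112782, 3, 5), (5, 2, 231141, 6, 0), (5, 3, 231141, 6, 0), (5, 4, 231140, 6, 0),
      (5, 5, 74729, 4, 0), (6, 0, 473968, 0, 11), (6, 1, 112752, 2, 8), (6, 2, 231141, 5, 0),
      (6, 3, 231140, 5, 0), (6, 4, 190722, 5, 0), (7, 0, 473902, 0, 11), (7, 1, 112752, 4, 2),
      (7, 2, 231140, 4, 0), (7, 3, 231140, 3, 0), (7, 4, 128730, 2, 0), (8, 0, 473869, 0, 11),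
      (8, 1, 112749, 3, 8), (8, 2, 231140, 3, 0), (8, 3, 231140, 3, 0), (9, 0, 473847, 0, 11),
      (9, 1, 112752, 2, 6), (9, 2, 205092, 2, 0), (10, 0, 462000, 0, 11)])
    (by decide +kernel)

set_option maxRecDepth 100000 in
theorem cz_31_14 : pebbling (kneser 31 14) = (31).choose 14 :=
  check_class_zero (Q := 1092000) (L :=
    [(0, 14, 1092000, 0, 0), (1, 11, 3500, 13, 0), (2, 10, 1450, 12, 1), (2, 11, 4604, 12, 0),
      (2, 12, 6102, 12, 0), (3, 8, 204, 8, 6), (3, 9, 1338, 11, 2), (3, 10, 1888, 9, 3),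
      (3, 11, 15264, 11, 0), (4, 7, 420, 7, 7), (4, 8, 861, 7, 6), (4, 9, 3064, 9, 3),
      (4, 10, 3627, 8, 3), (5, 6, 1768, 6, 8), (5, 7, 861, 7, 6), (5, 8, 2760, 9, 3),
      (6, 5, 1779, 6, 8), (6, 6, 1764, 6, 8), (6, 7, 847, 6, 6), (6, 8, 3618, 8, 3),
      (7, 4, 1773, 4, 10), (7, 5, 1765, 6, 8), (7, 6, 1765, 6, 8), (7, 7, 861, 6, 6),
      (8, 3, 7476, 3, 11), (8, 4, 1764, 4, 10), (8, 5, 1764, 6, 8), (8, 6, 420, 6, 8),
      (9, 2, 7434, 3, 11), (9, 3, 7419, 3, 11), (9, 4, 386, 4, 10), (10, 1, 7449, 3, 11),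
      (10, 2, 7418, 3, 11), (10, 3, 1550, 3, 11), (11, 0, 31290, 0, 14), (11, 1, 7419, 3, 11),
      (11, 2, 2744, 3, 11), (12, 0, 31192, 0, 14), (12, 1, 2972, 2, 12), (13, 0, 9100, 0, 14)])
    (by decide +kernel)

set_option maxRecDepth 100000 in
theorem cz_32_13 : pebbling (kneser 32 13) = (32).choose 13 :=
  check_class_zero (Q := 1225224000) (L :=
    [(0, 13, 1225224000, 0, 0), (1, 6, 45174, 6, 7), (1, 7, 69756, 12, 0), (1, 8, 76648, 11, 0),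
      (2, 5, 45174, 6, 7), (2, 7, 85603, 11, 0), (2, 9, 92562, 9, 0), (2, 10, 92562, 8, 0),
      (3, 4, 45216, 5, 8), (3, 5, 45150, 4, 8), (3, 6, 45152, 4, 7), (3, 7, 65015, 10, 0),
      (3, 9, 92562, 9, 0), (4, 3, 45150, 6, 7), (4, 4, 45171, 3, 9), (4, 5, 44942, 5, 8),
      (4, 7, 92562, 9, 0), (4, 8, 92560, 8, 0), (5, 2, 45144, 6, 7), (5, 3, 45150, 5, 8),
      (5, 4, 45150, 5, 8), (5, 5, 45152, 4, 8), (5, 6, 23833, 4, 7), (5, 7, 92562, 8, 0),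
      (5, 8, 92618, 8, 0), (6, 1, 45144, 6, 7), (6, 2, 45485, 3, 9), (6, 3, 45150, 4, 7),
      (6, 4, 45144, 2, 9), (6, 5, 45152, 4, 8), (6, 6, 37276, 4, 7), (6, 7, 92562, 7, 0),
      (7, 0, 189540, 0, 13), (7, 1, 45150, 3, 9), (7, 2, 45239, 2, 10), (7, 3, 45144, 4, 7),
      (7, 4, 45150, 2, 9), (7, 5, 45150, 5, 8), (7, 6, 45150, 6, 7), (8, 0, 189735, 0, 13),
      (8, 1, 45193, 2, 9), (8, 2, 45152, 5, 7), (8, 3, 45152, 3, 9), (8, 4, 45152, 5, 7),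
      (8, 5, 44525, 5, 8), (9, 0, 190177, 0, 13), (9, 1, 45150, 2, 10), (9, 2, 45152, 2, 10),
      (9, 3, 45150, 4, 7), (9, 4, 42147, 4, 7), (10, 0, 189943, 0, 13), (10, 1, 45152, 2, 10),
      (10, 2, 45150, 2, 9), (10, 3, 35050, 2, 9), (11, 0, 189774, 0, 13), (11, 1, 45150, 2, 10),
      (11, 2, 17355, 2, 9), (12, 0, 143000, 0, 13)])
    (by decide +kernel)

set_option maxRecDepth 100000 in
theorem cz_35_16 : pebbling (kneser 35 16) = (35).choose 16 :=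
  check_class_zero (Q := 471240) (L :=
    [(0, 16, 471240, 0, 0), (1, 12, 196, 13, 3), (1, 13, 815, 15, 0), (1, 15, 9940, 13, 0),
      (2, 11, 195, 13, 3), (2, 13, 2859, 14, 0), (3, 12, 1436, 12, 2), (3, 13, 9561, 13, 0),
      (4, 10, 168, 10, 5), (4, 11, 1562, 12, 2), (5, 9, 168, 10, 5), (5, 10, 1290, 11, 3),
      (6, 7, 259, 7, 9), (6, 8, 252, 7, 8), (6, 9, 392, 8, 6), (6, 10, 2345, 10, 3),
      (7, 6, 1165, 6, 10), (7, 7, 259, 7, 9), (7, 8, 532, 8, 6), (7, 9, 539, 8, 6),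
      (8, 5, 1122, 6, 10), (8, 6, 1106, 6, 10), (8, 7, 154, 8, 6), (9, 4, 1152, 6, 10),
      (9, 5, 1105, 6, 10), (9, 6, 330, 6, 10), (10, 3, 4725, 3, 13), (10, 4, 1104, 6, 10),
      (10, 5, 345, 6, 10), (11, 3, 3366, 3, 13), (12, 1, 4740, 1, 15), (12, 2, 3196, 3, 13),
      (12, 3, 392, 3, 13), (13, 0, 20072, 0, 16), (13, 1, 4651, 1, 15), (13, 3, 407, 3, 13),
      (14, 0, 19560, 0, 16), (14, 1, 510, 1, 15), (15, 0, 3080, 0, 16)])
    (by decide +kernel)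

set_option maxRecDepth 100000 in
theorem cz_46_21 : pebbling (kneser 46 21) = (46).choose 21 :=
  check_class_zero (Q := 40156716600) (L :=
    [(0, 21, 40156716600, 0, 0), (1, 16, 107437, 18, 3), (1, 17, 6900566, 20, 0),
      (1, 20, 60591627, 17, 0), (2, 15, 3430755, 15, 6), (2, 16, 1618650, 18, 2),
      (2, 17, 6802448, 19, 0), (3, 14, 3430812, 15, 6), (3, 15, 3430755, 15, 6),
      (3, 16, 3131640, 18, 1), (4, 13, 3430769, 15, 6), (4, 14, 3430763, 15, 6),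
      (4, 15, 2386220, 17, 2), (4, 17, 60591570, 17, 0), (5, 12, 3430854, 15, 6),
      (5, 13, 3430765, 15, 6), (5, 14, 3847571, 16, 3), (6, 11, 3430768, 15, 6),
      (6, 12, 3430767, 15, 6), (6, 13, 3430768, 12, 7), (6, 14, 347550, 15, 3),
      (6, 15, 14417903, 13, 4), (7, 10, 1673569, 10, 11), (7, 11, 573844, 10, 10),
      (7, 12, 3430769, 13, 6), (7, 13, 8230651, 14, 4), (8, 9, 1673541, 10, 11),
      (8, 10, 1673535, 10, 11), (8, 11, 3430765, 13, 6), (8, 12, 2943387, 11, 7),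
      (8, 13, 14417975, 13, 4), (9, 8, 7033260, 8, 13), (9, 9, 1673541, 10, 11),
      (9, 10, 3430765, 12, 7), (9, 11, 3430755, 11, 7), (9, 12, 3430764, 10, 7),
      (10, 7, 7033306, 8, 13), (10, 8, 7033077, 8, 13), (10, 9, 2686302, 11, 8),
      (10, 10, 1176375, 11, 7), (10, 11, 3430740, 9, 8), (11, 6, 7033125, 8, 13),
      (11, 7, 7033075, 8, 13), (11, 8, 5506926, 8, 13), (12, 5, 7033172, 8, 13),
      (12, 6, 6612837, 8, 13), (12, 7, 7033075, 8, 13), (13, 4, 29556744, 4, 17),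
      (13, 5, 7033075, 8, 13), (13, 6, 7033075, 8, 13), (13, 7, 847483, 8, 13),
      (14, 3, 29556522, 4, 17), (14, 4, 29556507, 4, 17), (14, 5, 6380840, 6, 15),
      (15, 2, 29557255, 4, 17), (15, 3, 29556507, 4, 17), (15, 4, 476291, 4, 17),
      (15, 6, 7033075, 6, 15), (16, 1, 29556480, 4, 17), (16, 2, 29556512, 4, 17),
      (16, 3, 17946122, 4, 17), (17, 0, 124211220, 0, 21), (17, 1, 29556570, 4, 17),
      (17, 2, 29556507, 4, 17), (17, 3, 57999, 4, 17), (18, 0, 124211486, 0, 21),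
      (18, 1, 29556506, 1, 20), (18, 2, 3318248, 2, 17), (18, 3, 220246, 2, 17),
      (19, 0, 124211234, 0, 21), (19, 1, 2465069, 1, 20), (20, 0, 19840275, 0, 21)])
    (by decide +kernel)

end Pool.Agent.KS6_83.KG
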